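import Pool.Agent.FNA.Defs
import Pool.Agent.Helper19.FrobFree

/-!
# Extraction of a certificate

`S` is the localisation of the Noetherian ring `P` at the prime ideal `p`. From the data of
`Helper19.frob_contradiction` over `S` one obtains a certificate over `P`: `I' = I ∩ P`,
`J' = (I + (a)) ∩ P`; multiply `φ`, `a`, `b`, `z`, `r`, `f j`, `g j` by elements outside of `p` (units of
`S`) which clear the denominators.
-/

open IsLocalRing

namespace Pool.Agent.FNA

open Pool.Agent.Helper19

universe u

/-- the first part of `frob_contradiction` -/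
private lemma exists_pair_aux {S : Type u} [CommRing S] [IsLocalRing S] [IsNoetherianRing S]
    (I : Ideal S) (hI : I ≠ ⊤) (c : ℕ) (φ : Fin (c + 1) → (I →ₗ[S] S ⧸ I))
    (huniv : ∀ ψ : I →ₗ[S] S ⧸ I, ∃ r : Fin (c + 1) → S ⧸ I, ∀ x, ψ x = ∑ i, r i * φ i x)
    (hindep : ∀ r : Fin (c + 1) → S ⧸ I, (∀ x, ∑ i, r i * φ i x = 0) → r = 0) :
    ∃ (a b : S) (f g : Fin (c + 1) → I), (∀ u, a * u ∈ I → u ∈ I) ∧
      (∀ u, b * u ∈ I ⊔ Ideal.span {a} → u ∈ I ⊔ Ideal.span {a}) ∧
      (∀ i j, φ i (f j) = if i = j then Ideal.Quotient.mk I a else 0) ∧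
      ∀ i j, φ i (g j) = if i = j then Ideal.Quotient.mk I b else 0 := by
  classical
  have : Nontrivial (S ⧸ I) := Ideal.Quotient.nontrivial_iff.mpr hI
  have : IsLocalRing (S ⧸ I) :=
    IsLocalRing.of_surjective' (Ideal.Quotient.mk I) Ideal.Quotient.mk_surjective
  -- the image
  let B : Submodule (S ⧸ I) (Fin (c + 1) → S ⧸ I) :=
    { carrier := {v | ∃ x : I, ∀ i, φ i x = v i}
      add_mem' := by
        rintro v w ⟨x, hx⟩ ⟨y, hy⟩
        exact ⟨x + y, fun i => by rw [map_add, hx, hy]; rfl⟩
      zero_mem' := ⟨0, fun i => by rw [map_zero]; rfl⟩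
      smul_mem' := by
        rintro r v ⟨x, hx⟩
        obtain ⟨q, rfl⟩ := Ideal.Quotient.mk_surjective r
        exact ⟨q • x, fun i => by rw [map_smul, hx, Algebra.smul_def]; rfl⟩ }
  let β : I →ₗ[S] B :=
    { toFun := fun x => ⟨fun i => φ i x, x, fun i => rfl⟩
      map_add' := fun x y => by
        apply Subtype.ext; funext i
        exact map_add (φ i) x y
      map_smul' := fun q x => by
        apply Subtype.ext; funext i
        exact map_smul (φ i) q x }
  have hβ : ∀ x i, (β x : Fin (c + 1) → S ⧸ I) i = φ i x := fun x i => rfl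
  have hβs : ∀ v : B, ∃ x, β x = v := by
    rintro ⟨v, x, hx⟩
    exact ⟨x, Subtype.ext (funext hx)⟩
  obtain ⟨x, hx, y, hy, hxreg, hyreg⟩ := exists_ann_pair B (by
      intro φ' hφ'
      have h2 := hindep (fun i => φ' (Pi.single i 1)) (by
        intro x
        rw [← hφ' _ (β x).2, LinearMap.pi_apply_eq_sum_univ φ']
        refine Finset.sum_congr rfl fun i _ => ?_
        rw [smul_eq_mul, mul_comm, hβ]
        congr 1
        congr 1
        funext j
        simp [Pi.single_apply, eq_comm])
      apply LinearMap.pi_ext'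
      intro i
      ext
      simpa using congrFun h2 i) (by
      intro g
      let ψ : I →ₗ[S] S ⧸ I := (g.restrictScalars S) ∘ₗ β
      obtain ⟨t, ht⟩ := huniv ψ
      refine ⟨Fintype.linearCombination (S ⧸ I) t, ?_⟩
      intro v
      obtain ⟨x, rfl⟩ := hβs v
      rw [Fintype.linearCombination_apply]
      change _ = ψ x
      rw [ht x]
      refine Finset.sum_congr rfl fun i _ => ?_
      rw [hβ, smul_eq_mul, mul_comm])
  obtain ⟨a, rfl⟩ := Ideal.Quotient.mk_surjective x
  obtain ⟨b, rfl⟩ := Ideal.Quotient.mk_surjective y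
  have hann : ∀ t : S, Ideal.Quotient.mk I t ∈ Module.annihilator (S ⧸ I) (_ ⧸ B) →
      ∀ j, ∃ f : I, ∀ i, φ i f = if i = j then Ideal.Quotient.mk I t else 0 := by
    intro t ht j
    have h1 := Module.mem_annihilator.mp ht (Submodule.Quotient.mk (Pi.single j 1))
    rw [← Submodule.Quotient.mk_smul, Submodule.Quotient.mk_eq_zero] at h1
    obtain ⟨f, hf⟩ := h1
    refine ⟨f, fun i => ?_⟩
    rw [hf]
    simp [Pi.single_apply]
  choose f hf using fun j => hann a hx j
  choose g hg using fun j => hann b hy j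
  exact ⟨a, b, f, g, fun u hu => reg_mod_of_isSMulRegular hxreg u hu,
    fun u hu => reg_pair_of_isSMulRegular hyreg u hu, fun i j => hf j i, fun i j => hg j i⟩

section clear

variable {P S : Type u} [CommRing P] [IsNoetherianRing P] [CommRing S] [Algebra P S]
    (p : Ideal P) [p.IsPrime] [IsLocalization.AtPrime S p]

omit [IsNoetherianRing P] in
private lemma prod_notMem_aux {ι : Type*} (s : Finset ι) (h : ι → P) (hh : ∀ i, h i ∉ p) :
    ∏ i ∈ s, h i ∉ p := by
  intro hmem
  rw [Ideal.IsPrime.prod_mem_iff] at hmem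
  obtain ⟨i, _, hi⟩ := hmem
  exact hh i hi

omit [IsNoetherianRing P] in
include S in
/-- finitely many elements -/
private lemma exists_clear_fin {ι : Type} [Fintype ι] (K : Ideal P) (x : ι → P)
    (hx : ∀ i, algebraMap P S (x i) ∈ K.map (algebraMap P S)) :
    ∃ H : P, H ∉ p ∧ ∀ i, H * x i ∈ K := by
  classical
  have h1 : ∀ i, ∃ h : P, h ∉ p ∧ h * x i ∈ K := by
    intro i
    have := (IsLocalization.algebraMap_mem_map_algebraMap_iff p.primeCompl S K (x i)).mp (hx i)
    obtain ⟨m, hm, hmx⟩ := this
    exact ⟨m, hm, hmx⟩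
  choose h hh hhx using h1
  refine ⟨∏ i, h i, prod_notMem_aux p _ _ hh, fun i => ?_⟩
  rw [← Finset.mul_prod_erase Finset.univ h (Finset.mem_univ i)]
  have : h i * (∏ j ∈ Finset.univ.erase i, h j) * x i =
      (∏ j ∈ Finset.univ.erase i, h j) * (h i * x i) := by ring
  rw [this]
  exact K.mul_mem_left _ (hhx i)

include S in
/-- a whole ideal -/
private lemma exists_clear_ideal (K J : Ideal P)
    (hJ : ∀ y ∈ J, algebraMap P S y ∈ K.map (algebraMap P S)) :
    ∃ H : P, H ∉ p ∧ ∀ y ∈ J, H * y ∈ K := by
  classical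
  obtain ⟨n, s, hs⟩ := Submodule.fg_iff_exists_fin_generating_family.mp
    (IsNoetherian.noetherian J)
  obtain ⟨H, hH, hHs⟩ := exists_clear_fin (S := S) p K s (fun i => hJ _ (by
    rw [← hs]; exact Submodule.subset_span ⟨i, rfl⟩))
  refine ⟨H, hH, fun y hy => ?_⟩
  rw [← hs, Submodule.mem_span_range_iff_exists_fun] at hy
  obtain ⟨c, rfl⟩ := hy
  rw [Finset.mul_sum]
  refine Ideal.sum_mem _ fun i _ => ?_
  rw [smul_eq_mul, mul_left_comm]
  exact K.mul_mem_left _ (hHs i)

end clear

theorem exists_cert {P S : Type u} [CommRing P] [IsNoetherianRing P] [CommRing S] [Algebra P S]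
    [IsLocalRing S] (p : Ideal P) [p.IsPrime] [IsLocalization.AtPrime S p]
    (I : Ideal S) (hI : I ≠ ⊤) (c : ℕ) (φ : Fin (c + 1) → (I →ₗ[S] S ⧸ I))
    (huniv : ∀ ψ : I →ₗ[S] S ⧸ I, ∃ r : Fin (c + 1) → S ⧸ I, ∀ x, ψ x = ∑ i, r i * φ i x)
    (hindep : ∀ r : Fin (c + 1) → S ⧸ I, (∀ x, ∑ i, r i * φ i x = 0) → r = 0)
    (r : Fin (c + 1) → S) (hr : IsUnit (r 0))
    (hψ : ∀ x : I, ∃ z ∈ maximalIdeal S,
      Ideal.Quotient.mk I z = ∑ i, Ideal.Quotient.mk I (r i) * φ i x) :
    ∃ (m : ℕ) (I' J' : Ideal P) (H a b z : P) (g : Fin m → P) (u f f' : Fin (c + 1) → Fin m → P)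
      (r' : Fin (c + 1) → P), IsCert I' J' p H a b z g u f f' r' ∧ H ∉ p ∧ r' 0 ∉ p := by
  classical
  have : IsNoetherianRing S := IsLocalization.isNoetherianRing p.primeCompl S inferInstance
  obtain ⟨aS, bS, F, F', ha, hb, hF, hF'⟩ := exists_pair_aux I hI c φ huniv hindep
  obtain ⟨zS, hz, hzK⟩ := exists_mul_mem_sq I φ huniv aS ha F hF
  have hsm : ∀ i (s : S) (x : I), φ i (s • x) = Ideal.Quotient.mk I s * φ i x := by
    intro i s x
    rw [map_smul, Algebra.smul_def]
    rfl
  -- units
  have hunit : ∀ t : p.primeCompl, IsUnit (algebraMap P S t) := fun t =>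
    IsLocalization.map_units S t
  set I' : Ideal P := I.comap (algebraMap P S) with hI'
  have hmap : I'.map (algebraMap P S) = I := IsLocalization.map_under p.primeCompl S I
  have hmem' : ∀ y, y ∈ I' ↔ algebraMap P S y ∈ I := fun y => Iff.rfl
  obtain ⟨m, g, hg⟩ := Submodule.fg_iff_exists_fin_generating_family.mp
    (IsNoetherian.noetherian I')
  have hgI : ∀ l, algebraMap P S (g l) ∈ I := by
    intro l
    rw [← hmem', ← hg]
    exact Submodule.subset_span ⟨l, rfl⟩
  let G : Fin m → I := fun l => ⟨algebraMap P S (g l), hgI l⟩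
  have hspan : ∀ x : I, ∃ s : Fin m → S, x = ∑ l, s l • G l := by
    rintro ⟨x, hx⟩
    have h1 : x ∈ Ideal.span (Set.range fun l => algebraMap P S (g l)) := by
      have h2 : Ideal.span (Set.range fun l => algebraMap P S (g l)) = I := by
        conv_rhs => rw [← hmap, ← hg]
        change _ = Ideal.map (algebraMap P S) (Ideal.span (Set.range g))
        rw [Ideal.map_span, ← Set.range_comp]
        rfl
      rw [h2]; exact hx
    rw [Ideal.span, Submodule.mem_span_range_iff_exists_fun] at h1
    obtain ⟨s, hs⟩ := h1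
    refine ⟨s, Subtype.ext ?_⟩
    rw [Submodule.coe_sum]
    exact hs.symm
  -- values
  choose v hv using fun (i : Fin (c + 1)) (l : Fin m) => Ideal.Quotient.mk_surjective (φ i (G l))
  obtain ⟨t, ht⟩ := IsLocalization.exist_integer_multiples_of_finite p.primeCompl
    (fun q : Fin (c + 1) × Fin m => v q.1 q.2)
  choose u0 hu0 using ht
  let u : Fin (c + 1) → Fin m → P := fun i l => u0 (i, l)
  have hu : ∀ i l, Ideal.Quotient.mk I (algebraMap P S (u i l)) =
      Ideal.Quotient.mk I (algebraMap P S t) * φ i (G l) := by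
    intro i l
    have h1 : algebraMap P S (u i l) = algebraMap P S t * v i l := by
      have := hu0 (i, l)
      rw [Algebra.smul_def] at this
      exact this
    rw [h1, map_mul, hv]
  -- `φ` on combinations
  have hcomb : ∀ i (s : Fin m → S), ∑ l, Ideal.Quotient.mk I (s l) *
      Ideal.Quotient.mk I (algebraMap P S (u i l)) =
      Ideal.Quotient.mk I (algebraMap P S t) * φ i (∑ l, s l • G l) := by
    intro i s
    rw [map_sum, Finset.mul_sum]
    refine Finset.sum_congr rfl fun l _ => ?_
    rw [hu, hsm]; ring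
  -- coefficients of `F`, `F'`
  choose s hs using fun j => hspan (F j)
  choose s' hs' using fun j => hspan (F' j)
  obtain ⟨T, hT⟩ := IsLocalization.exist_integer_multiples_of_finite p.primeCompl
    (fun q : (Fin (c + 1) × Fin m) ⊕ (Fin (c + 1) × Fin m) ⊕ Fin 2 =>
      Sum.elim (fun q => s q.1 q.2) (Sum.elim (fun q => s' q.1 q.2) (fun k => if k = 0 then aS else bS)) q)
  choose w0 hw0 using hT
  let f : Fin (c + 1) → Fin m → P := fun j l => w0 (Sum.inl (j, l))
  let f' : Fin (c + 1) → Fin m → P := fun j l => w0 (Sum.inr (Sum.inl (j, l)))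
  let a1 : P := w0 (Sum.inr (Sum.inr 0))
  let b1 : P := w0 (Sum.inr (Sum.inr 1))
  have hf1 : ∀ j l, algebraMap P S (f j l) = algebraMap P S T * s j l := fun j l => by
    have := hw0 (Sum.inl (j, l))
    rw [Algebra.smul_def] at this
    exact this
  have hf1' : ∀ j l, algebraMap P S (f' j l) = algebraMap P S T * s' j l := fun j l => by
    have := hw0 (Sum.inr (Sum.inl (j, l)))
    rw [Algebra.smul_def] at this
    exact this
  have ha1 : algebraMap P S a1 = algebraMap P S T * aS := by
    have := hw0 (Sum.inr (Sum.inr 0))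
    rw [Algebra.smul_def] at this
    exact this
  have hb1 : algebraMap P S b1 = algebraMap P S T * bS := by
    have := hw0 (Sum.inr (Sum.inr 1))
    rw [Algebra.smul_def] at this
    exact this
  let a : P := t * a1
  let b : P := t * b1
  have hTt : IsUnit (algebraMap P S t * algebraMap P S T) := (hunit t).mul (hunit T)
  have haS : algebraMap P S a = (algebraMap P S t * algebraMap P S T) * aS := by
    simp only [a]
    rw [map_mul, ha1]; ring
  have hbS : algebraMap P S b = (algebraMap P S t * algebraMap P S T) * bS := by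
    simp only [b]
    rw [map_mul, hb1]; ring
  have hspa : Ideal.span {algebraMap P S a} = Ideal.span {aS} := by
    rw [haS]
    exact Ideal.span_singleton_mul_left_unit hTt aS
  clear_value a b
  -- the elements `F j` over `P`
  have hFj : ∀ j, algebraMap P S (∑ l, f j l * g l) = algebraMap P S T * (F j : S) := by
    intro j
    rw [map_sum, hs j, Submodule.coe_sum, Finset.mul_sum]
    refine Finset.sum_congr rfl fun l _ => ?_
    rw [map_mul, hf1]
    change _ = algebraMap P S T * (s j l * algebraMap P S (g l))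
    ring
  have hFj' : ∀ j, algebraMap P S (∑ l, f' j l * g l) = algebraMap P S T * (F' j : S) := by
    intro j
    rw [map_sum, hs' j, Submodule.coe_sum, Finset.mul_sum]
    refine Finset.sum_congr rfl fun l _ => ?_
    rw [map_mul, hf1']
    change _ = algebraMap P S T * (s' j l * algebraMap P S (g l))
    ring
  have hfu : ∀ i j, Ideal.Quotient.mk I (algebraMap P S (∑ l, f j l * u i l)) =
      if i = j then Ideal.Quotient.mk I (algebraMap P S a) else 0 := by
    intro i j
    rw [map_sum, map_sum]
    have h1 : ∀ l, Ideal.Quotient.mk I (algebraMap P S (f j l * u i l)) =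
        Ideal.Quotient.mk I (algebraMap P S T) * (Ideal.Quotient.mk I (s j l) *
          Ideal.Quotient.mk I (algebraMap P S (u i l))) := by
      intro l
      rw [map_mul, map_mul, hf1, map_mul]; ring
    rw [Finset.sum_congr rfl fun l _ => h1 l, ← Finset.mul_sum, hcomb, ← hs j, hF]
    split_ifs
    · rw [haS, map_mul, map_mul]; ring
    · rw [mul_zero, mul_zero]
  have hfu' : ∀ i j, Ideal.Quotient.mk I (algebraMap P S (∑ l, f' j l * u i l)) =
      if i = j then Ideal.Quotient.mk I (algebraMap P S b) else 0 := by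
    intro i j
    rw [map_sum, map_sum]
    have h1 : ∀ l, Ideal.Quotient.mk I (algebraMap P S (f' j l * u i l)) =
        Ideal.Quotient.mk I (algebraMap P S T) * (Ideal.Quotient.mk I (s' j l) *
          Ideal.Quotient.mk I (algebraMap P S (u i l))) := by
      intro l
      rw [map_mul, map_mul, hf1', map_mul]; ring
    rw [Finset.sum_congr rfl fun l _ => h1 l, ← Finset.mul_sum, hcomb, ← hs' j, hF']
    split_ifs
    · rw [hbS, map_mul, map_mul]; ring
    · rw [mul_zero, mul_zero]
  -- `z` and `r`
  obtain ⟨t4, ht4⟩ := IsLocalization.exist_integer_multiples_of_finite p.primeCompl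
    (fun q : Fin (c + 1) ⊕ Unit => Sum.elim r (fun _ => zS) q)
  choose r0 hr0 using ht4
  have hr' : ∀ i, algebraMap P S (r0 (Sum.inl i)) = algebraMap P S t4 * r i := fun i => by
    have := hr0 (Sum.inl i)
    rw [Algebra.smul_def] at this
    exact this
  have hz1 : algebraMap P S (r0 (Sum.inr ())) = algebraMap P S t4 * zS := by
    have := hr0 (Sum.inr ())
    rw [Algebra.smul_def] at this
    exact this
  let z1 : P := r0 (Sum.inr ())
  let r' : Fin (c + 1) → P := fun i => r0 (Sum.inl i)
  -- the elements of the kernel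
  let X : Fin m → P := fun l => a * g l - ∑ j, u j l * ∑ l', f j l' * g l'
  let X' : Fin (c + 1) → P := fun j => b * ∑ l, f j l * g l - a * ∑ l, f' j l * g l
  have hφP : ∀ (y : P) (hy : algebraMap P S y ∈ I) (s : Fin m → P), y = ∑ l, s l * g l →
      ∀ i, Ideal.Quotient.mk I (algebraMap P S t) * φ i ⟨algebraMap P S y, hy⟩ =
        Ideal.Quotient.mk I (algebraMap P S (∑ l, s l * u i l)) := by
    intro y hy s hys i
    have h1 : (⟨algebraMap P S y, hy⟩ : I) = ∑ l, (algebraMap P S (s l)) • G l := by
      apply Subtype.ext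
      rw [Submodule.coe_sum]
      change algebraMap P S y = ∑ l, algebraMap P S (s l) * algebraMap P S (g l)
      rw [hys, map_sum]
      exact Finset.sum_congr rfl fun l _ => map_mul _ _ _
    rw [h1, ← hcomb, map_sum, map_sum]
    exact Finset.sum_congr rfl fun l _ => by rw [map_mul, map_mul]
  have htmk : IsUnit (Ideal.Quotient.mk I (algebraMap P S t)) := (hunit t).map _
  have hker : ∀ (y : P) (hy : algebraMap P S y ∈ I) (s : Fin m → P), y = ∑ l, s l * g l →
      (∀ i, Ideal.Quotient.mk I (algebraMap P S (∑ l, s l * u i l)) = 0) →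
      zS * algebraMap P S y ∈ I ^ 2 := by
    intro y hy s hys h0
    refine hzK ⟨algebraMap P S y, hy⟩ fun i => ?_
    have h1 := hφP y hy s hys i
    rw [h0 i] at h1
    exact (htmk.mul_right_eq_zero).mp h1
  have hgP : ∀ s : Fin m → P, algebraMap P S (∑ l, s l * g l) ∈ I := by
    intro s
    rw [← hmem']
    refine Ideal.sum_mem _ fun l _ => Ideal.mul_mem_left _ _ ?_
    exact hgI l
  have hX : ∀ l, zS * algebraMap P S (X l) ∈ I ^ 2 := by
    intro l
    have hXl : X l = ∑ l', (Pi.single (M := fun _ => P) l a l' - ∑ j, u j l * f j l') * g l' := by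
      simp only [X, sub_mul, Finset.sum_sub_distrib]
      congr 1
      · rw [Finset.sum_eq_single l]
        · rw [Pi.single_eq_same]
        · intro l' _ hl'
          rw [Pi.single_eq_of_ne hl', zero_mul]
        · intro h
          exact absurd (Finset.mem_univ l) h
      · have h2 : ∀ l', (∑ j, u j l * f j l') * g l' = ∑ j, u j l * (f j l' * g l') := by
          intro l'
          rw [Finset.sum_mul]
          exact Finset.sum_congr rfl fun j _ => by ring
        rw [Finset.sum_congr rfl fun l' _ => h2 l', Finset.sum_comm]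
        exact Finset.sum_congr rfl fun j _ => by rw [Finset.mul_sum]
    refine hker (X l) (by rw [hXl]; exact hgP _) _ hXl fun i => ?_
    have h3 : ∑ l', (Pi.single (M := fun _ => P) l a l' - ∑ j, u j l * f j l') * u i l' =
        a * u i l - ∑ j, u j l * ∑ l', f j l' * u i l' := by
      simp only [sub_mul, Finset.sum_sub_distrib]
      congr 1
      · rw [Finset.sum_eq_single l]
        · rw [Pi.single_eq_same]
        · intro l' _ hl'
          rw [Pi.single_eq_of_ne hl', zero_mul]
        · intro h
          exact absurd (Finset.mem_univ l) h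
      · have h2 : ∀ l', (∑ j, u j l * f j l') * u i l' = ∑ j, u j l * (f j l' * u i l') := by
          intro l'
          rw [Finset.sum_mul]
          exact Finset.sum_congr rfl fun j _ => by ring
        rw [Finset.sum_congr rfl fun l' _ => h2 l', Finset.sum_comm]
        exact Finset.sum_congr rfl fun j _ => by rw [Finset.mul_sum]
    rw [h3, map_sub, map_sub, map_sum, map_sum, map_mul, map_mul]
    have h4 : ∀ j, Ideal.Quotient.mk I (algebraMap P S (u j l * ∑ l', f j l' * u i l')) =
        if i = j then Ideal.Quotient.mk I (algebraMap P S (u j l)) *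
          Ideal.Quotient.mk I (algebraMap P S a) else 0 := by
      intro j
      rw [map_mul, map_mul, hfu]
      split_ifs
      · rfl
      · rw [mul_zero]
    rw [Finset.sum_congr rfl fun j _ => h4 j]
    simp only [Finset.sum_ite_eq, Finset.mem_univ, if_true]
    ring
  have hX' : ∀ j, zS * algebraMap P S (X' j) ∈ I ^ 2 := by
    intro j
    have hXl : X' j = ∑ l, (b * f j l - a * f' j l) * g l := by
      simp only [X', sub_mul, Finset.sum_sub_distrib, Finset.mul_sum, mul_assoc]
    refine hker (X' j) (by rw [hXl]; exact hgP _) _ hXl fun i => ?_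
    have h3 : ∑ l, (b * f j l - a * f' j l) * u i l =
        b * ∑ l, f j l * u i l - a * ∑ l, f' j l * u i l := by
      simp only [sub_mul, Finset.sum_sub_distrib, Finset.mul_sum, mul_assoc]
    rw [h3, map_sub, map_sub, map_mul, map_mul, map_mul, map_mul, hfu, hfu']
    split_ifs
    · ring
    · rw [mul_zero, mul_zero, sub_zero]
  have hsqmap : (I' ^ 2).map (algebraMap P S) = I ^ 2 := by
    rw [Ideal.map_pow, hmap]
  obtain ⟨h0, hh0, hh0X⟩ := exists_clear_fin (S := S) p (I' ^ 2)
    (fun q : Fin m ⊕ Fin (c + 1) => Sum.elim (fun l => z1 * X l) (fun j => z1 * X' j) q) (by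
      rw [hsqmap]
      rintro (l | j)
      · change algebraMap P S (z1 * X l) ∈ I ^ 2
        rw [map_mul, hz1, mul_assoc]
        exact Ideal.mul_mem_left _ _ (hX l)
      · change algebraMap P S (z1 * X' j) ∈ I ^ 2
        rw [map_mul, hz1, mul_assoc]
        exact Ideal.mul_mem_left _ _ (hX' j))
  -- the ideal `J'`
  set J' : Ideal P := (I ⊔ Ideal.span {aS}).comap (algebraMap P S) with hJ'
  have hKmap : (I' ⊔ Ideal.span {a}).map (algebraMap P S) = I ⊔ Ideal.span {aS} := by
    rw [Ideal.map_sup, hmap, Ideal.map_span, Set.image_singleton, hspa]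
  obtain ⟨H, hH, hHJ⟩ := exists_clear_ideal (S := S) p (I' ⊔ Ideal.span {a}) J' (by
    intro y hy
    rw [hKmap]
    exact hy)
  have hImax : I ≤ maximalIdeal S := IsLocalRing.le_maximalIdeal hI
  have hp : ∀ y : P, algebraMap P S y ∈ maximalIdeal S ↔ y ∈ p := fun y =>
    IsLocalization.AtPrime.to_map_mem_maximal_iff S p y
  refine ⟨m, I', J', H, a, b, h0 * z1, g, u, f, f', r', ?_, hH, ?_⟩
  · constructor
    · exact hg
    · intro s hs0 i
      have h1 := hφP 0 (by rw [map_zero]; exact I.zero_mem) s hs0.symm i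
      have h2 : (⟨algebraMap P S 0, by rw [map_zero]; exact I.zero_mem⟩ : I) = 0 :=
        Subtype.ext (map_zero _)
      rw [h2, map_zero, mul_zero] at h1
      rw [hmem', ← Ideal.Quotient.eq_zero_iff_mem]
      exact h1.symm
    · intro y hy
      rw [hmem', map_mul, haS, mul_assoc] at hy
      exact ha _ ((Ideal.unit_mul_mem_iff_mem _ hTt).mp hy)
    · intro y hy
      rw [hmem', map_mul, map_mul, hz1] at hy
      have hu0 : IsUnit (algebraMap P S h0) := hunit ⟨h0, hh0⟩
      rw [mul_assoc, mul_assoc, Ideal.unit_mul_mem_iff_mem _ hu0,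
        Ideal.unit_mul_mem_iff_mem _ (hunit t4)] at hy
      exact hz _ hy
    · intro y hy
      change algebraMap P S (b * y) ∈ I ⊔ Ideal.span {aS} at hy
      rw [map_mul, hbS, mul_assoc] at hy
      exact hb _ ((Ideal.unit_mul_mem_iff_mem _ hTt).mp hy)
    · refine sup_le ?_ ?_
      · intro y hy
        exact Ideal.mem_sup_left hy
      · rw [Ideal.span_singleton_le_iff_mem]
        change algebraMap P S a ∈ I ⊔ Ideal.span {aS}
        rw [haS]
        exact Ideal.mem_sup_right (Ideal.mul_mem_left _ _ (Ideal.mem_span_singleton_self aS))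
    · exact hHJ
    · intro i j
      rw [hmem', map_sub, ← Ideal.Quotient.eq, hfu]
      split_ifs
      · rfl
      · rw [map_zero, map_zero]
    · intro i j
      rw [hmem', map_sub, ← Ideal.Quotient.eq, hfu']
      split_ifs
      · rfl
      · rw [map_zero, map_zero]
    · intro l
      have := hh0X (Sum.inl l)
      rw [mul_assoc]
      exact this
    · intro j
      have := hh0X (Sum.inr j)
      rw [mul_assoc]
      exact this
    · intro l
      rw [← hp]
      obtain ⟨w, hw, hwx⟩ := hψ (G l)
      have h1 : Ideal.Quotient.mk I (algebraMap P S (∑ i, r' i * u i l)) =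
          Ideal.Quotient.mk I (algebraMap P S t4 * algebraMap P S t * w) := by
        rw [map_sum, map_sum, map_mul (Ideal.Quotient.mk I), hwx, Finset.mul_sum]
        refine Finset.sum_congr rfl fun i _ => ?_
        rw [map_mul, map_mul, hr', hu, map_mul, map_mul]; ring
      rw [Ideal.Quotient.eq] at h1
      have h2 := hImax h1
      have h3 : algebraMap P S t4 * algebraMap P S t * w ∈ maximalIdeal S :=
        Ideal.mul_mem_left _ _ hw
      have := (maximalIdeal S).add_mem h2 h3
      rwa [sub_add_cancel] at this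
    · intro y hy
      rw [← hp]
      exact hImax hy
  · rw [← hp, hr' 0]
    intro h1
    exact (mem_maximalIdeal _).mp h1 ((hunit t4).mul hr)

end Pool.Agent.FNA
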