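import Pool.Agent.FNA.Defs
import Pool.Agent.Helper19.FrobCert

/-!
# Certificates are impossible in characteristic `p`

Certificate version of `Helper19.frob_key`, `frob_contradiction`: the functionals `φ i` are
constructed from `rel`; `frob_key` uses `huniv` only through `exists_mul_mem_sq`, that is through
`sq` and `sq'`; `regb` and `J_le` with `H` a unit say that `J = I + (a)`.
-/

open IsLocalRing

namespace Pool.Agent.FNA

open Pool.Agent.Helper19

universe u

private lemma exists_factor_aux {S M N K : Type*} [CommRing S] [AddCommGroup M] [Module S M]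
    [AddCommGroup N] [Module S N] [AddCommGroup K] [Module S K] (π : M →ₗ[S] N)
    (hπ : Function.Surjective π) (U : M →ₗ[S] K) (h : LinearMap.ker π ≤ LinearMap.ker U) :
    ∃ φ : N →ₗ[S] K, ∀ x, φ (π x) = U x := by
  refine ⟨(Submodule.liftQ (LinearMap.ker π) U h) ∘ₗ
    (π.quotKerEquivOfSurjective hπ).symm.toLinearMap, fun x => ?_⟩
  have h1 : (π.quotKerEquivOfSurjective hπ).symm (π x) = Submodule.Quotient.mk x := by
    rw [LinearEquiv.symm_apply_eq]
    rfl
  rw [LinearMap.comp_apply, LinearEquiv.coe_coe, h1]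
  rfl

theorem cert_false {S : Type u} [CommRing S] [IsLocalRing S] [IsNoetherianRing S]
    (hfrob : ∀ N : ℕ, ∃ q, N ≤ q ∧ PowAdd q S ∧ FrobFlat q S) {m c : ℕ} {I J : Ideal S}
    {H a b z : S} {g : Fin m → S} {u f f' : Fin (c + 1) → Fin m → S} {r : Fin (c + 1) → S}
    (h : IsCert I J (maximalIdeal S) H a b z g u f f' r) (hH : IsUnit H) (hr : IsUnit (r 0)) :
    False := by
  classical
  have hI : I ≠ ⊤ := by
    intro h1
    have h2 := h.le_Q
    rw [h1] at h2
    exact (maximalIdeal.isMaximal S).ne_top (top_le_iff.mp h2)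
  have hmem : ∀ s : Fin m → S, ∑ l, s l * g l ∈ I := by
    intro s
    rw [← h.span]
    exact Ideal.sum_mem _ fun l _ => Ideal.mul_mem_left _ _ (Ideal.subset_span ⟨l, rfl⟩)
  let π : (Fin m → S) →ₗ[S] I :=
    { toFun := fun s => ⟨∑ l, s l * g l, hmem s⟩
      map_add' := fun s t => by
        apply Subtype.ext
        change ∑ l, (s l + t l) * g l = ∑ l, s l * g l + ∑ l, t l * g l
        rw [← Finset.sum_add_distrib]
        exact Finset.sum_congr rfl fun l _ => by ring
      map_smul' := fun k s => by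
        apply Subtype.ext
        change ∑ l, (k * s l) * g l = k * ∑ l, s l * g l
        rw [Finset.mul_sum]
        exact Finset.sum_congr rfl fun l _ => by ring }
  have hπv : ∀ s, (π s : S) = ∑ l, s l * g l := fun s => rfl
  have hπ : Function.Surjective π := by
    rintro ⟨x, hx⟩
    rw [← h.span, Ideal.span, Submodule.mem_span_range_iff_exists_fun] at hx
    obtain ⟨s, hs⟩ := hx
    exact ⟨s, Subtype.ext hs⟩
  let U : Fin (c + 1) → ((Fin m → S) →ₗ[S] S ⧸ I) := fun i =>
    { toFun := fun s => Ideal.Quotient.mk I (∑ l, s l * u i l)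
      map_add' := fun s t => by
        rw [← map_add, ← Finset.sum_add_distrib]
        congr 1
        refine Finset.sum_congr rfl fun l _ => ?_
        rw [Pi.add_apply]; ring
      map_smul' := fun k s => by
        change _ = Ideal.Quotient.mk I (k * ∑ l, s l * u i l)
        congr 1
        rw [Finset.mul_sum]
        refine Finset.sum_congr rfl fun l _ => ?_
        rw [Pi.smul_apply, smul_eq_mul]; ring }
  have hU : ∀ i s, U i s = Ideal.Quotient.mk I (∑ l, s l * u i l) := fun i s => rfl
  have hker : ∀ i, LinearMap.ker π ≤ LinearMap.ker (U i) := by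
    intro i s hs
    rw [LinearMap.mem_ker] at hs ⊢
    rw [hU, Ideal.Quotient.eq_zero_iff_mem]
    exact h.rel s (congrArg Subtype.val hs) i
  choose φ hφ using fun i => exists_factor_aux π hπ (U i) (hker i)
  have hval : ∀ (t v : S), t - v ∈ I → Ideal.Quotient.mk I t = Ideal.Quotient.mk I v :=
    fun t v htv => Ideal.Quotient.eq.mpr htv
  refine frob_cert_false hfrob I hI c φ a b z h.rega ?_ h.regz (fun j => π (f j))
    (fun j => π (f' j)) ?_ ?_ ?_ r hr ?_
  · intro y hy
    have h1 := h.J_le y (h.regb y (h.le_J hy))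
    exact (Ideal.unit_mul_mem_iff_mem _ hH).mp h1
  · intro i j
    rw [hφ, hU, hval _ _ (h.hf i j)]
    split_ifs
    · rfl
    · exact map_zero _
  · intro x hx
    obtain ⟨s, hs⟩ := hπ ⟨x, hx⟩
    have hx' : x = ∑ l, s l * g l := (congrArg Subtype.val hs).symm
    have h1 : z * a * x = ∑ l, s l * (z * (a * g l - ∑ j, u j l * ∑ l', f j l' * g l')) +
        ∑ j, (z * ∑ l, s l * u j l) * ∑ l', f j l' * g l' := by
      rw [hx']
      have h2 : ∑ j, (z * ∑ l, s l * u j l) * ∑ l', f j l' * g l' =
          ∑ l, s l * (z * ∑ j, u j l * ∑ l', f j l' * g l') := by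
        have h3 : ∀ j, (z * ∑ l, s l * u j l) * ∑ l', f j l' * g l' =
            ∑ l, s l * (z * (u j l * ∑ l', f j l' * g l')) := by
          intro j
          rw [show z * ∑ l, s l * u j l = ∑ l, z * (s l * u j l) from Finset.mul_sum _ _ _,
            Finset.sum_mul]
          exact Finset.sum_congr rfl fun l _ => by ring
        rw [Finset.sum_congr rfl fun j _ => h3 j, Finset.sum_comm]
        refine Finset.sum_congr rfl fun l _ => ?_
        rw [Finset.mul_sum, Finset.mul_sum]
      rw [h2, ← Finset.sum_add_distrib, Finset.mul_sum]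
      refine Finset.sum_congr rfl fun l _ => ?_
      ring
    rw [h1]
    refine Ideal.add_mem _ (Ideal.mem_sup_right ?_) (Ideal.mem_sup_left ?_)
    · exact Ideal.sum_mem _ fun l _ => Ideal.mul_mem_left _ _ (h.sq l)
    · exact Ideal.sum_mem _ fun j _ => Ideal.mul_mem_left _ _ (Ideal.subset_span ⟨j, rfl⟩)
  · intro j
    exact h.sq' j
  · intro x
    obtain ⟨s, rfl⟩ := hπ x
    refine ⟨∑ l, s l * ∑ i, r i * u i l,
      Ideal.sum_mem _ fun l _ => Ideal.mul_mem_left _ _ (h.psi l), ?_⟩
    have h1 : ∀ i, Ideal.Quotient.mk I (r i) * φ i (π s) =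
        Ideal.Quotient.mk I (r i * ∑ l, s l * u i l) := by
      intro i
      rw [hφ, hU, map_mul]
    rw [Finset.sum_congr rfl fun i _ => h1 i, ← map_sum]
    congr 1
    have h2 : ∀ l, s l * ∑ i, r i * u i l = ∑ i, r i * (s l * u i l) := by
      intro l
      rw [Finset.mul_sum]
      exact Finset.sum_congr rfl fun i _ => by ring
    rw [Finset.sum_congr rfl fun l _ => h2 l, Finset.sum_comm]
    exact Finset.sum_congr rfl fun i _ => by rw [Finset.mul_sum]

end Pool.Agent.FNA
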