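import Mathlib

/-!
# Certificates

The finite data from which the Frobenius argument for a free normal module produces a
contradiction: generators `g` of `I`, the values `u i l` of the functionals `φ i : I → P/I` on
`g l`, a pair `a`, `b` of elements, regular on `P/I`, with `φ i (f j) = a δ`, `φ i (f' j) = b δ`,
and an element `z`, regular on `P/I`, which kills the kernel of `(φ i)` modulo `I²`.
-/

open scoped BigOperators

namespace Pool.Agent.FNA

universe u

/-- `g` generates `I`; `φ i (∑ s l g l) = ∑ s l u i l` is a well defined map `I → P/I`;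
`f j`, `f' j` are the elements `∑ f j l g l`, `∑ f' j l g l` of `I`. The ideal `J` contains
`I + (a)` with `H J ⊆ I + (a)`, and `b` is regular modulo `J`. -/
structure IsCert {P : Type u} [CommRing P] {m c : ℕ} (I J Q : Ideal P) (H a b z : P)
    (g : Fin m → P) (u f f' : Fin (c + 1) → Fin m → P) (r : Fin (c + 1) → P) : Prop where
  span : Ideal.span (Set.range g) = I
  rel : ∀ s : Fin m → P, ∑ l, s l * g l = 0 → ∀ i, ∑ l, s l * u i l ∈ I
  rega : ∀ y, a * y ∈ I → y ∈ I
  regz : ∀ y, z * y ∈ I → y ∈ I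
  regb : ∀ y, b * y ∈ J → y ∈ J
  le_J : I ⊔ Ideal.span {a} ≤ J
  J_le : ∀ y ∈ J, H * y ∈ I ⊔ Ideal.span {a}
  hf : ∀ i j, ∑ l, f j l * u i l - (if i = j then a else 0) ∈ I
  hf' : ∀ i j, ∑ l, f' j l * u i l - (if i = j then b else 0) ∈ I
  sq : ∀ l, z * (a * g l - ∑ j, u j l * ∑ l', f j l' * g l') ∈ I ^ 2
  sq' : ∀ j, z * (b * ∑ l, f j l * g l - a * ∑ l, f' j l * g l) ∈ I ^ 2
  psi : ∀ l, ∑ i, r i * u i l ∈ Q
  le_Q : I ≤ Q

end Pool.Agent.FNA
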