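import Pool.Agent.FNA.Spe
import Pool.Agent.FNA.Defs

/-!
# Specialisation of certificates
-/

open Filter MvPolynomial

namespace Pool.Agent.FNA

universe u

variable {k : Type u} [Field k] {n : ℕ}

private theorem evC_le (I J : Ideal (MvPolynomial (Fin n) k)) (H a : MvPolynomial (Fin n) k)
    (h : ∀ y ∈ J, H * y ∈ I ⊔ Ideal.span {a}) :
    ∀ᶠ V : ValuationSubring k in fil k, ∀ H' a' : MvPolynomial (Fin n) V,
      incl n V H' = H → incl n V a' = a →
      ∀ y ∈ sp V J, red n V H' * y ∈ sp V I ⊔ Ideal.span {red n V a'} := by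
  obtain ⟨m, g, hg⟩ := Submodule.fg_iff_exists_fin_generating_family.1
    (IsNoetherian.noetherian J)
  have h1 : ∀ l, ∃ i w, i ∈ I ∧ H * g l = i + w * a := by
    intro l
    have h2 := h (g l) (by rw [← hg]; exact Submodule.subset_span ⟨l, rfl⟩)
    obtain ⟨i, hi, w', hw', h3⟩ := Submodule.mem_sup.1 h2
    obtain ⟨w, rfl⟩ := Ideal.mem_span_singleton'.1 hw'
    exact ⟨i, w, hi, h3.symm⟩
  choose i w hi hw using h1
  filter_upwards [ev_span J g hg, Filter.eventually_all.2 fun l => ev_lift (g l),
    Filter.eventually_all.2 fun l => ev_lift (i l),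
    Filter.eventually_all.2 fun l => ev_lift (w l)] with V hV h1 h2 h3 H' a' hH' ha' y hy
  choose G hG using h1
  choose i' hi' using h2
  choose w' hw' using h3
  rw [← hV G hG] at hy
  have key : ∀ l, red n V H' * red n V (G l) ∈ sp V I ⊔ Ideal.span {red n V a'} := by
    intro l
    have h4 : H' * G l = i' l + w' l * a' := by
      apply incl_inj V
      rw [map_mul, map_add, map_mul, hH', hG, hi', hw', ha', hw]
    rw [← map_mul, h4, map_add, map_mul]
    exact Ideal.add_mem _ (Ideal.mem_sup_left (red_mem_sp (by rw [hi']; exact hi l)))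
      (Ideal.mem_sup_right (Ideal.mul_mem_left _ _ (Ideal.mem_span_singleton_self _)))
  obtain ⟨c, rfl⟩ := Ideal.mem_span_range_iff_exists_fun.1 hy
  rw [Finset.mul_sum]
  refine Ideal.sum_mem _ fun l _ => ?_
  have h5 : red n V H' * (c l * red n V (G l)) = c l * (red n V H' * red n V (G l)) := by ring
  rw [h5]
  exact Ideal.mul_mem_left _ _ (key l)

theorem ev_cert {m c : ℕ} {I J Q : Ideal (MvPolynomial (Fin n) k)}
    {H a b z : MvPolynomial (Fin n) k} {g : Fin m → MvPolynomial (Fin n) k}
    {u f f' : Fin (c + 1) → Fin m → MvPolynomial (Fin n) k}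
    {r : Fin (c + 1) → MvPolynomial (Fin n) k} (h : IsCert I J Q H a b z g u f f' r) :
    ∀ᶠ V : ValuationSubring k in fil k, ∀ (H' a' b' z' : MvPolynomial (Fin n) V)
      (g' : Fin m → MvPolynomial (Fin n) V)
      (u' p p' : Fin (c + 1) → Fin m → MvPolynomial (Fin n) V)
      (r' : Fin (c + 1) → MvPolynomial (Fin n) V),
      incl n V H' = H → incl n V a' = a → incl n V b' = b → incl n V z' = z →
      (∀ l, incl n V (g' l) = g l) → (∀ i l, incl n V (u' i l) = u i l) →
      (∀ i l, incl n V (p i l) = f i l) → (∀ i l, incl n V (p' i l) = f' i l) →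
      (∀ i, incl n V (r' i) = r i) →
      IsCert (sp V I) (sp V J) (sp V Q) (red n V H') (red n V a') (red n V b') (red n V z')
        (fun l => red n V (g' l)) (fun i l => red n V (u' i l)) (fun i l => red n V (p i l))
        (fun i l => red n V (p' i l)) (fun i => red n V (r' i)) := by
  filter_upwards [ev_span I g h.span,
    Filter.eventually_all.2 fun i => ev_rel I g (u i) h.span (fun s hs => h.rel s hs i),
    ev_reg I a h.rega, ev_reg I z h.regz, ev_reg J b h.regb, evC_le I J H a h.J_le,
    Filter.eventually_all.2 fun l => ev_sq I _ (h.sq l),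
    Filter.eventually_all.2 fun j => ev_sq I _ (h.sq' j)] with V e1 e2 e3 e4 e5 e6 e7 e8
      H' a' b' z' g' u' p p' r' hH ha hb hz hg hu hp hp' hr
  refine ⟨e1 g' hg, fun s hs i => e2 i g' (u' i) hg (hu i) s hs, e3 a' ha, e4 z' hz, e5 b' hb,
    ?_, e6 H' a' hH ha, ?_, ?_, ?_, ?_, ?_, sp_mono V h.le_Q⟩
  · refine sup_le (sp_mono V (le_sup_left.trans h.le_J)) ?_
    rw [Ideal.span_singleton_le_iff_mem]
    apply red_mem_sp
    rw [ha]
    exact h.le_J (Ideal.mem_sup_right (Ideal.mem_span_singleton_self _))
  · intro i j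
    have h1 : ∑ l, red n V (p j l) * red n V (u' i l) - (if i = j then red n V a' else 0) =
        red n V (∑ l, p j l * u' i l - (if i = j then a' else 0)) := by
      rw [map_sub, map_sum]
      congr 1
      · exact Finset.sum_congr rfl fun l _ => (map_mul _ _ _).symm
      · split_ifs
        · rfl
        · exact (map_zero _).symm
    rw [h1]
    apply red_mem_sp
    have h2 : incl n V (∑ l, p j l * u' i l - (if i = j then a' else 0)) =
        ∑ l, f j l * u i l - (if i = j then a else 0) := by
      rw [map_sub, map_sum]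
      congr 1
      · exact Finset.sum_congr rfl fun l _ => by rw [map_mul, hp, hu]
      · split_ifs
        · exact ha
        · exact map_zero _
    rw [h2]
    exact h.hf i j
  · intro i j
    have h1 : ∑ l, red n V (p' j l) * red n V (u' i l) - (if i = j then red n V b' else 0) =
        red n V (∑ l, p' j l * u' i l - (if i = j then b' else 0)) := by
      rw [map_sub, map_sum]
      congr 1
      · exact Finset.sum_congr rfl fun l _ => (map_mul _ _ _).symm
      · split_ifs
        · rfl
        · exact (map_zero _).symm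
    rw [h1]
    apply red_mem_sp
    have h2 : incl n V (∑ l, p' j l * u' i l - (if i = j then b' else 0)) =
        ∑ l, f' j l * u i l - (if i = j then b else 0) := by
      rw [map_sub, map_sum]
      congr 1
      · exact Finset.sum_congr rfl fun l _ => by rw [map_mul, hp', hu]
      · split_ifs
        · exact hb
        · exact map_zero _
    rw [h2]
    exact h.hf' i j
  · intro l
    have h1 := e7 l (z' * (a' * g' l - ∑ j, u' j l * ∑ l', p j l' * g' l')) (by
      simp only [map_mul, map_sub, map_sum, hz, ha, hg, hu, hp])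
    simpa only [map_mul, map_sub, map_sum] using h1
  · intro j
    have h1 := e8 j (z' * (b' * ∑ l, p j l * g' l - a' * ∑ l, p' j l * g' l)) (by
      simp only [map_mul, map_sub, map_sum, hz, ha, hb, hg, hp, hp'])
    simpa only [map_mul, map_sub, map_sum] using h1
  · intro l
    have h1 : ∑ i, red n V (r' i) * red n V (u' i l) = red n V (∑ i, r' i * u' i l) := by
      rw [map_sum]
      exact Finset.sum_congr rfl fun i _ => (map_mul _ _ _).symm
    rw [h1]
    apply red_mem_sp
    rw [map_sum]
    have h2 := h.psi l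
    convert h2 using 2
    rw [map_mul, hr, hu]

end Pool.Agent.FNA
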