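import Mathlib

/-!
# Valuation rings of a field which contain many given elements

`fil k` is the filter generated by the sets of the valuation rings of `k` which contain a given
element. In characteristic zero it has frequently valuation rings whose residue field has positive
characteristic.
-/

open Filter

namespace Pool.Agent.FNA

universe u

/-- the filter of the valuation rings of `k` which contain many given elements -/
def fil (k : Type u) [Field k] : Filter (ValuationSubring k) := ⨅ t : k, 𝓟 {V | t ∈ V}

variable {k : Type u} [Field k]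

theorem ev_mem (t : k) : ∀ᶠ V : ValuationSubring k in fil k, t ∈ V :=
  mem_iInf_of_mem t (mem_principal_self _)

theorem exists_of_ev {P : ValuationSubring k → Prop} (h : ∀ᶠ V in fil k, P V) :
    ∃ T : Finset k, ∀ V : ValuationSubring k, (∀ t ∈ T, t ∈ V) → P V := by
  have h1 := (hasBasis_iInf_principal_finite (fun t : k => {V : ValuationSubring k | t ∈ V})).mem_iff.1 h
  obtain ⟨T, hT, hsub⟩ := h1
  refine ⟨hT.toFinset, fun V hV => hsub ?_⟩
  simp only [Set.mem_iInter]
  intro t ht
  exact hV t (hT.mem_toFinset.2 ht)

private theorem jac_int : IsJacobsonRing ℤ := by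
  rw [isJacobsonRing_iff_prime_eq]
  intro P hP
  by_cases h : P = ⊥
  · subst h
    rw [eq_bot_iff]
    intro x hx
    rw [Ideal.mem_jacobson_bot] at hx
    have h1 := Int.isUnit_iff.1 (hx x)
    have h2 : x = 0 := by
      rcases h1 with h1 | h1
      · have h3 : x * x = 0 := by linarith
        exact mul_self_eq_zero.1 h3
      · have h3 := mul_self_nonneg x
        exfalso
        linarith
    rw [h2]
    exact Ideal.zero_mem _
  · have := hP.isMaximal h
    exact Ideal.jacobson_eq_self_of_isMaximal

/-- there is a valuation ring which contains given elements and whose residue field has positive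
characteristic -/
theorem exists_val (T : Finset k) :
    ∃ (V : ValuationSubring k) (p : ℕ), p.Prime ∧ (∀ t ∈ T, t ∈ V) ∧
      CharP (IsLocalRing.ResidueField V) p := by
  set A : Subalgebra ℤ k := Algebra.adjoin ℤ (T : Set k) with hA
  have hft : Algebra.FiniteType ℤ A := A.fg_iff_finiteType.1 (Subalgebra.fg_adjoin_finset T)
  obtain ⟨M, hM⟩ := Ideal.exists_maximal A
  let : Field (A ⧸ M) := Ideal.Quotient.field M
  have hft2 : Algebra.FiniteType ℤ (A ⧸ M) :=
    Algebra.FiniteType.of_surjective (Ideal.Quotient.mkₐ ℤ M) (Ideal.Quotient.mkₐ_surjective ℤ M)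
  have := jac_int
  have hfin : Module.Finite ℤ (A ⧸ M) := finite_of_finite_type_of_isJacobsonRing ℤ (A ⧸ M)
  obtain ⟨p, hp⟩ := CharP.exists (A ⧸ M)
  have hp' : p ≠ 0 := by
    intro h0
    subst h0
    have : CharZero (A ⧸ M) := CharP.charP_to_charZero (A ⧸ M)
    have hinj : Function.Injective (algebraMap ℤ (A ⧸ M)) := by
      intro a b hab
      rw [eq_intCast, eq_intCast] at hab
      exact Int.cast_injective hab
    exact Int.not_isField (isField_of_isIntegral_of_isField hinj (Field.toIsField (A ⧸ M)))
  have hpp : p.Prime := (CharP.char_is_prime_or_zero (A ⧸ M) p).resolve_right hp'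
  have hpM : (p : A) ∈ M := by
    rw [← Ideal.Quotient.eq_zero_iff_mem, map_natCast]
    exact CharP.cast_eq_zero _ _
  obtain ⟨V, hV, hMV⟩ := Ideal.image_subset_nonunits_valuationSubring
    (A := A.toSubring) M hM.ne_top
  refine ⟨V, p, hpp, fun t ht => hV (Algebra.subset_adjoin ht), ?_⟩
  have h1 : (((p : ℕ) : V) : k) ∈ V.nonunits := hMV ⟨(p : A), hpM, by
    change ((p : A) : k) = _
    push_cast
    rfl⟩
  rw [V.coe_mem_nonunits_iff] at h1
  have h0 : ((p : ℕ) : IsLocalRing.ResidueField V) = 0 := by
    rw [← map_natCast (IsLocalRing.residue V), IsLocalRing.residue_eq_zero_iff]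
    exact h1
  exact (CharP.charP_iff_prime_eq_zero hpp).2 h0

theorem frequently_char (k : Type u) [Field k] :
    ∃ᶠ V : ValuationSubring k in fil k,
      ∃ p : ℕ, p.Prime ∧ CharP (IsLocalRing.ResidueField V) p := by
  rw [Filter.frequently_iff]
  intro U hU
  obtain ⟨T, hT⟩ := exists_of_ev (P := fun V => V ∈ U) hU
  obtain ⟨V, p, hp, hV, hc⟩ := exists_val T
  exact ⟨V, hT V hV, p, hp, hc⟩

end Pool.Agent.FNA
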