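import Pool.Agent.FNA.Main
import Pool.Agent.Helper19.FreeNormalMain
import Pool.Agent.Helper19.VascCharP

/-!
# Free normal modules: all cases
-/

open MvPolynomial IsLocalRing CategoryTheory RingTheory.Sequence

namespace Pool.Agent.FNA

open Pool.Agent.Helper19

universe u

/-- `S` is a localisation of a polynomial ring over a field at a prime ideal. -/
def PolyLoc (S : Type u) [CommRing S] : Prop :=
  ∃ (k : Type u) (_ : Field k) (n : ℕ) (q : Ideal (MvPolynomial (Fin n) k)) (_ : q.IsPrime),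
    Nonempty (Localization.AtPrime q ≃+* S)

theorem impossible_polyLoc {S : Type u} [CommRing S] [IsLocalRing S] (h : PolyLoc S)
    (I : Ideal S) (hI : I ≠ ⊤) : Impossible I := by
  obtain ⟨k, _, n, q, _, ⟨e⟩⟩ := h
  let : Algebra (MvPolynomial (Fin n) k) S :=
    ((e : Localization.AtPrime q →+* S).comp
      (algebraMap (MvPolynomial (Fin n) k) (Localization.AtPrime q))).toAlgebra
  have : IsLocalization.AtPrime S q :=
    IsLocalization.isLocalization_of_algEquiv q.primeCompl
      (AlgEquiv.ofRingEquiv (f := e) (fun x => rfl))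
  exact impossible_loc q I hI

/-- Vasconcelos' conjecture when the normal module is free, or the depth is at most two. -/
theorem free_normal_all (S : Type u) [CommRing S] [IsLocalRing S] [IsNoetherianRing S]
    (I : Ideal S) (hI : I ≠ ⊤) (hfin : projectiveDimension (ModuleCat.of S (S ⧸ I)) < ⊤)
    (hN : Module.Free (S ⧸ I) (I.Cotangent →ₗ[S ⧸ I] (S ⧸ I)) ∨
      ((∀ rs : List (S ⧸ I), IsRegular (S ⧸ I) rs → rs.length ≤ 2) ∧
        projectiveDimension (ModuleCat.of (S ⧸ I) (I.Cotangent →ₗ[S ⧸ I] (S ⧸ I))) < ⊤))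
    (h : ((∃ gs : List S, IsRegular S gs ∧ (∀ g ∈ gs, g ∈ I) ∧
        projectiveDimension (ModuleCat.of S (S ⧸ I)) ≤ gs.length) ∨
      ∀ x ∈ I, (∀ E ∈ maximalIdeal S • (⊤ : Submodule S (Derivation ℤ S S)),
        (∀ y ∈ I, E y ∈ I) → E x ∈ maximalIdeal S * I) → x ∈ maximalIdeal S * I) ∨
      (IsRegularLocalRing S ∧ ∃ p : ℕ, p.Prime ∧ CharP S p) ∨ PolyLoc S) :
    ∃ rs : List S, IsRegular S rs ∧ Ideal.ofList rs = I := by
  rcases h with h | ⟨hreg, p, hp, hchar⟩ | h
  · exact free_normal_main S I hI hfin hN h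
  · have : Fact p.Prime := ⟨hp⟩
    exact vasconcelos_charP S p I hI hN
  · exact vasconcelos_imp S I (impossible_polyLoc h I hI) hI hfin hN

end Pool.Agent.FNA
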