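import Pool.Agent.Helper19.FrobFree
import Pool.Agent.Helper19.ABound

/-!
# Free normal modules: reduction to a contradiction

As `Helper19.frob_surjective`, `exists_regularSeq_of_free_frob` (helper19), with the Frobenius
argument replaced by the assumption `Impossible I`: there is no dual basis of `Hom(I, S/I)` and no
row `r` with `r 0` a unit and `∑ r i φ i (I) ⊆ m`.
-/

universe u

open CategoryTheory IsLocalRing Module RingTheory.Sequence

namespace Pool.Agent.FNA

open Pool.Agent.Helper19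

/-- no dual basis of `Hom(I, S/I)` maps `I` into a proper subspace modulo the maximal ideal -/
def Impossible {S : Type u} [CommRing S] [IsLocalRing S] (I : Ideal S) : Prop :=
  ∀ (c : ℕ) (φ : Fin (c + 1) → (I →ₗ[S] S ⧸ I)),
    (∀ ψ : I →ₗ[S] S ⧸ I, ∃ r : Fin (c + 1) → S ⧸ I, ∀ x, ψ x = ∑ i, r i * φ i x) →
    (∀ r : Fin (c + 1) → S ⧸ I, (∀ x, ∑ i, r i * φ i x = 0) → r = 0) →
    ∀ r : Fin (c + 1) → S, IsUnit (r 0) →
    ¬ ∀ x : I, ∃ z ∈ maximalIdeal S,
      Ideal.Quotient.mk I z = ∑ i, Ideal.Quotient.mk I (r i) * φ i x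

private theorem imp_surjective {S : Type u} [CommRing S] [IsLocalRing S] [IsNoetherianRing S]
    (I : Ideal S) (himp : Impossible I) (hI : I ≠ ⊤) (c : ℕ)
    (φ : Fin c → (I →ₗ[S] S ⧸ I))
    (huniv : ∀ ψ : I →ₗ[S] S ⧸ I, ∃ r : Fin c → S ⧸ I, ∀ x, ψ x = ∑ i, r i * φ i x)
    (hindep : ∀ r : Fin c → S ⧸ I, (∀ x, ∑ i, r i * φ i x = 0) → r = 0)
    (v : Fin c → S ⧸ I) : ∃ x : I, ∀ i, φ i x = v i := by
  classical
  have : Nontrivial (S ⧸ I) := Ideal.Quotient.nontrivial_iff.mpr hI
  have : IsLocalRing (S ⧸ I) :=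
    IsLocalRing.of_surjective' (Ideal.Quotient.mk I) Ideal.Quotient.mk_surjective
  let B : Submodule (S ⧸ I) (Fin c → S ⧸ I) :=
    { carrier := {v | ∃ x : I, ∀ i, φ i x = v i}
      add_mem' := by
        rintro v w ⟨x, hx⟩ ⟨y, hy⟩
        exact ⟨x + y, fun i => by rw [map_add, hx, hy]; rfl⟩
      zero_mem' := ⟨0, fun i => by rw [map_zero]; rfl⟩
      smul_mem' := by
        rintro r v ⟨x, hx⟩
        obtain ⟨q, rfl⟩ := Ideal.Quotient.mk_surjective r
        exact ⟨q • x, fun i => by rw [map_smul, hx, Algebra.smul_def]; rfl⟩ }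
  suffices h : Subsingleton ((Fin c → S ⧸ I) ⧸ B) by
    have h1 : v ∈ B := by
      rw [← Submodule.Quotient.mk_eq_zero]
      exact Subsingleton.elim _ _
    exact h1
  apply subsingleton_of_hom_residue (A := S ⧸ I)
  intro g
  by_contra hg
  -- some basis vector is not killed
  obtain ⟨i₀, hi₀⟩ : ∃ i, g (Submodule.Quotient.mk (Pi.single i 1)) ≠ 0 := by
    by_contra hcon
    push Not at hcon
    apply hg
    have h2 : g ∘ₗ B.mkQ = 0 := by
      apply LinearMap.pi_ext'
      intro i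
      ext
      simpa using hcon i
    apply LinearMap.ext
    intro x
    obtain ⟨x, rfl⟩ := Submodule.Quotient.mk_surjective _ x
    exact LinearMap.congr_fun h2 x
  choose r hr using fun i => (residue_surjective (R := S ⧸ I))
    (g (Submodule.Quotient.mk (Pi.single i 1)))
  choose s hs using fun i => Ideal.Quotient.mk_surjective (r i)
  have hgv : ∀ v : Fin c → S ⧸ I, g (Submodule.Quotient.mk v) = residue (S ⧸ I) (∑ i, r i * v i) := by
    intro v
    have h1 : g (Submodule.Quotient.mk v) = (g ∘ₗ B.mkQ) v := rfl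
    rw [h1, LinearMap.pi_apply_eq_sum_univ (g ∘ₗ B.mkQ), map_sum]
    refine Finset.sum_congr rfl fun i _ => ?_
    rw [map_mul, hr, mul_comm, Algebra.smul_def]
    congr 1
    rw [LinearMap.comp_apply, Submodule.mkQ_apply]
    congr 2
    funext j
    simp [Pi.single_apply, eq_comm]
  -- reindex
  have hker : ∀ x : I, ∃ z ∈ maximalIdeal S,
      Ideal.Quotient.mk I z = ∑ i, Ideal.Quotient.mk I (s i) * φ i x := by
    intro x
    obtain ⟨z, hz⟩ := Ideal.Quotient.mk_surjective (∑ i, Ideal.Quotient.mk I (s i) * φ i x)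
    refine ⟨z, ?_, hz⟩
    by_contra hzm
    rw [mem_maximalIdeal, mem_nonunits_iff, not_not] at hzm
    have h1 := hgv (fun i => φ i x)
    have h2 : (Submodule.Quotient.mk (fun i => φ i x) : _ ⧸ B) = 0 := by
      rw [Submodule.Quotient.mk_eq_zero]
      exact ⟨x, fun i => rfl⟩
    rw [h2, map_zero] at h1
    have h3 : ∑ i, r i * φ i x = Ideal.Quotient.mk I z := by
      rw [hz]
      exact Finset.sum_congr rfl fun i _ => by rw [hs]
    rw [h3] at h1
    exact ((hzm.map (Ideal.Quotient.mk I)).map (residue (S ⧸ I))).ne_zero h1.symm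
  have hunit : IsUnit (s i₀) := by
    by_contra hsu
    have h1 : Ideal.Quotient.mk I (s i₀) ∈ maximalIdeal (S ⧸ I) :=
      algebraMap_mem_maximal (R := S ⧸ I) Ideal.Quotient.mk_surjective hsu
    rw [hs, ← residue_eq_zero_iff, hr] at h1
    exact hi₀ h1
  clear_value B
  clear hgv hr hi₀ hg g
  cases c with
  | zero => exact i₀.elim0
  | succ c =>
    let σ : Equiv.Perm (Fin (c + 1)) := Equiv.swap 0 i₀
    have hσ0 : σ 0 = i₀ := Equiv.swap_apply_left 0 i₀
    refine himp c (fun i => φ (σ i)) ?_ ?_ (fun i => s (σ i))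
      (by rw [hσ0]; exact hunit) ?_
    · intro ψ
      obtain ⟨t, ht⟩ := huniv ψ
      refine ⟨fun i => t (σ i), fun x => ?_⟩
      rw [ht x]
      exact (Equiv.sum_comp σ fun i => t i * φ i x).symm
    · intro t ht
      have h1 := hindep (fun i => t (σ.symm i)) (fun x => by
        rw [← ht x, ← Equiv.sum_comp σ]
        refine Finset.sum_congr rfl fun i _ => ?_
        rw [Equiv.symm_apply_apply])
      funext i
      have h2 := congrFun h1 (σ i)
      simpa using h2
    · intro x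
      obtain ⟨z, hz, hzx⟩ := hker x
      refine ⟨z, hz, ?_⟩
      rw [hzx]
      exact (Equiv.sum_comp σ fun i => Ideal.Quotient.mk I (s i) * φ i x).symm

private theorem imp_free {S : Type u} [CommRing S] [IsLocalRing S]
    [IsNoetherianRing S] (I : Ideal S) (himp : Impossible I) (hI : I ≠ ⊤) (n : ℕ) (hpd : PD S (S ⧸ I) n)
    (hfree : Module.Free (S ⧸ I) (RingHom.ker (algebraMap S (S ⧸ I)) →ₗ[S] (S ⧸ I))) :
    ∃ rs : List S, IsRegular S rs ∧ Ideal.ofList rs = I := by
  have : Nontrivial (S ⧸ I) := Ideal.Quotient.nontrivial_iff.mpr hI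
  have : IsLocalRing (S ⧸ I) :=
    IsLocalRing.of_surjective' (Ideal.Quotient.mk I) Ideal.Quotient.mk_surjective
  let K := RingHom.ker (algebraMap S (S ⧸ I))
  let e : I ≃ₗ[S] K := LinearEquiv.ofEq _ _ Ideal.mk_ker.symm
  have : Module.Finite (S ⧸ I) (K →ₗ[S] (S ⧸ I)) := finite_hom
  let b := Module.finBasis (S ⧸ I) (K →ₗ[S] (S ⧸ I))
  set c := Module.finrank (S ⧸ I) (K →ₗ[S] (S ⧸ I))
  have hexp : ∀ ψ : K →ₗ[S] (S ⧸ I), ∀ x, ψ x = ∑ i, b.repr ψ i * b i x := by
    intro ψ x
    conv_lhs => rw [← b.sum_repr ψ]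
    rw [LinearMap.sum_apply]
    rfl
  obtain ⟨rs, h1, h2⟩ := exists_regularSeq_of_free_dual (R := S ⧸ I) c S
    Ideal.Quotient.mk_surjective n hpd (fun i => b i) (by
      intro v
      obtain ⟨x, hx⟩ := imp_surjective I himp hI c (fun i => (b i).comp e.toLinearMap) (by
        intro ψ
        refine ⟨b.repr (ψ.comp e.symm.toLinearMap), fun x => ?_⟩
        have := hexp (ψ.comp e.symm.toLinearMap) (e x)
        rw [LinearMap.comp_apply, LinearEquiv.coe_coe, LinearEquiv.symm_apply_apply] at this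
        exact this) (by
        intro r hr
        have h1 : ∑ i, r i • b i = 0 := by
          ext x
          have := hr (e.symm x)
          rw [LinearMap.sum_apply, LinearMap.zero_apply, ← this]
          refine Finset.sum_congr rfl fun i _ => ?_
          rw [LinearMap.comp_apply, LinearEquiv.coe_coe, LinearEquiv.apply_symm_apply]
          rfl
        funext i
        exact Fintype.linearIndependent_iff.mp b.linearIndependent _ h1 i) v
      exact ⟨e x, hx⟩) (fun ψ => ⟨b.repr ψ, hexp ψ⟩)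
  exact ⟨rs, h1, h2.trans Ideal.mk_ker⟩

/-- `N_R` free, or of finite projective dimension with `depth R ≤ 2`: then `I` is generated by a
regular sequence, if `Impossible I`. -/
theorem vasconcelos_imp (S : Type u) [CommRing S] [IsLocalRing S] [IsNoetherianRing S]
    (I : Ideal S) (himp : Impossible I) (hI : I ≠ ⊤)
    (hfin : projectiveDimension (ModuleCat.of S (S ⧸ I)) < ⊤)
    (h : Module.Free (S ⧸ I) (I.Cotangent →ₗ[S ⧸ I] (S ⧸ I)) ∨
      ((∀ rs : List (S ⧸ I), IsRegular (S ⧸ I) rs → rs.length ≤ 2) ∧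
        projectiveDimension (ModuleCat.of (S ⧸ I) (I.Cotangent →ₗ[S ⧸ I] (S ⧸ I))) < ⊤)) :
    ∃ rs : List S, IsRegular S rs ∧ Ideal.ofList rs = I := by
  have : Nontrivial (S ⧸ I) := Ideal.Quotient.nontrivial_iff.mpr hI
  have : IsLocalRing (S ⧸ I) :=
    IsLocalRing.of_surjective' (Ideal.Quotient.mk I) Ideal.Quotient.mk_surjective
  have hfree : Module.Free (S ⧸ I)
      (RingHom.ker (algebraMap S (S ⧸ I)) →ₗ[S] (S ⧸ I)) := by
    rcases h with hN | ⟨hdepth, hpd⟩
    · exact Module.Free.of_equiv (cotangentHomEquiv I (S ⧸ I))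
    · obtain ⟨l, hl⟩ := (projectiveDimension_ne_top_iff _).mp hpd.ne
      have hproj : Module.Projective (S ⧸ I)
          (RingHom.ker (algebraMap S (S ⧸ I)) →ₗ[S] (S ⧸ I)) :=
        projective_dual_of_depth_le_two hdepth ⟨l + 1, PD.congr (cotangentHomEquiv I (S ⧸ I)) hl⟩
      have : Module.Finite (S ⧸ I)
          (RingHom.ker (algebraMap S (S ⧸ I)) →ₗ[S] (S ⧸ I)) := finite_hom
      exact Module.free_of_flat_of_isLocalRing
  obtain ⟨l, hl⟩ := (projectiveDimension_ne_top_iff _).mp hfin.ne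
  exact imp_free I himp hI _ hl hfree

end Pool.Agent.FNA
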