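import Pool.Agent.FNA.Fil

/-!
# Ideals of polynomials over valuation rings

Let `J` be an ideal of `k[x]` generated by `g`. For many valuation rings `V` of `k` the polynomials
over `V` which lie in `J` are generated over `V[x]` by `g`, and if `J ≠ k[x]` then they do not
generate the unit ideal modulo the maximal ideal of `V`: a finite set of polynomials whose leading
monomials generate those of `J` has invertible leading coefficients over `V`.
-/

open Filter MvPolynomial

namespace Pool.Agent.FNA

universe u

variable {k : Type u} [Field k] {n : ℕ}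

/-- the inclusion `V[x] → k[x]` -/
noncomputable def incl (n : ℕ) (V : ValuationSubring k) :
    MvPolynomial (Fin n) V →+* MvPolynomial (Fin n) k := MvPolynomial.map V.subtype

/-- the reduction `V[x] → κ[x]`, where `κ` is the residue field of `V` -/
noncomputable def red (n : ℕ) (V : ValuationSubring k) :
    MvPolynomial (Fin n) V →+* MvPolynomial (Fin n) (IsLocalRing.ResidueField V) :=
  MvPolynomial.map (IsLocalRing.residue V)

theorem incl_inj (V : ValuationSubring k) : Function.Injective (incl n V) :=
  MvPolynomial.map_injective _ Subtype.val_injective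

theorem red_surj (V : ValuationSubring k) : Function.Surjective (red n V) :=
  MvPolynomial.map_surjective _ IsLocalRing.residue_surjective

theorem ev_lift (f : MvPolynomial (Fin n) k) :
    ∀ᶠ V : ValuationSubring k in fil k, ∃ F, incl n V F = f := by
  filter_upwards [(Filter.eventually_all_finset f.support).2 fun m _ => ev_mem (coeff m f)]
    with V hV
  have h : f ∈ Set.range (MvPolynomial.map (σ := Fin n) V.subtype) := by
    rw [mem_range_map_iff_coeffs_subset]
    intro c hc
    obtain ⟨m, hm, rfl⟩ := mem_coeffs_iff.1 hc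
    exact ⟨⟨_, hV m hm⟩, rfl⟩
  exact h

theorem incl_support (V : ValuationSubring k) (F : MvPolynomial (Fin n) V) :
    (incl n V F).support = F.support :=
  support_map_of_injective F Subtype.val_injective

theorem incl_degree (V : ValuationSubring k) (F : MvPolynomial (Fin n) V) :
    (MonomialOrder.lex (σ := Fin n)).degree (incl n V F) =
      (MonomialOrder.lex (σ := Fin n)).degree F := by
  unfold MonomialOrder.degree
  rw [incl_support]

/-- a polynomial which vanishes modulo the maximal ideal is divisible by a constant of the maximal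
ideal -/
theorem red_eq_zero {V : ValuationSubring k} {F : MvPolynomial (Fin n) V} (h : red n V F = 0) :
    ∃ π ∈ IsLocalRing.maximalIdeal V, ∃ G, F = C π * G := by
  classical
  have h1 : ∀ m, coeff m F ∈ IsLocalRing.maximalIdeal V := by
    intro m
    rw [← IsLocalRing.residue_eq_zero_iff, ← coeff_map]
    have := congrArg (coeff m) h
    rw [coeff_zero] at this
    exact this
  have h2 : (Ideal.span ((fun m => coeff m F) '' (F.support : Set (Fin n →₀ ℕ)))).IsPrincipal := by
    apply IsBezout.isPrincipal_of_FG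
    exact ⟨F.support.image (fun m => coeff m F), by rw [Finset.coe_image]⟩
  obtain ⟨π, hπ⟩ := h2
  have hπ' : Ideal.span ((fun m => coeff m F) '' (F.support : Set (Fin n →₀ ℕ))) =
      Ideal.span {π} := hπ
  refine ⟨π, ?_, ?_⟩
  · have h3 : π ∈ Ideal.span ((fun m => coeff m F) '' (F.support : Set (Fin n →₀ ℕ))) := by
      rw [hπ']; exact Ideal.mem_span_singleton_self _
    refine (Ideal.span_le.2 ?_) h3
    rintro _ ⟨m, -, rfl⟩
    exact h1 m
  · have h3 : C π ∣ F := by
      rw [C_dvd_iff_dvd_coeff]
      intro m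
      by_cases hm : m ∈ F.support
      · rw [← Ideal.mem_span_singleton, ← hπ']
        exact Ideal.subset_span ⟨m, hm, rfl⟩
      · rw [notMem_support_iff.1 hm]
        exact dvd_zero _
    exact h3

open scoped MonomialOrder in
/-- a finite set of elements of `J` whose leading monomials divide the others -/
theorem exists_grb (J : Ideal (MvPolynomial (Fin n) k)) :
    ∃ B : Finset (MvPolynomial (Fin n) k), (∀ b ∈ B, b ∈ J ∧ b ≠ 0) ∧
      ∀ f ∈ J, f ≠ 0 → ∃ b ∈ B, (MonomialOrder.lex (σ := Fin n)).degree b ≤
        (MonomialOrder.lex (σ := Fin n)).degree f := by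
  classical
  set E : Set (Fin n →₀ ℕ) := {d | ∃ f ∈ J, f ≠ 0 ∧ (MonomialOrder.lex (σ := Fin n)).degree f = d}
    with hE
  have h1 : (Ideal.span ((fun s => monomial s (1 : k)) '' E)).FG := IsNoetherian.noetherian _
  obtain ⟨s', hs', hspan⟩ := (Submodule.fg_span_iff_fg_span_finset_subset _).1 h1
  obtain ⟨D, hD, rfl⟩ := Finset.subset_set_image_iff.1 hs'
  have h2 : ∀ d ∈ D, ∃ f ∈ J, f ≠ 0 ∧ (MonomialOrder.lex (σ := Fin n)).degree f = d :=
    fun d hd => hD hd
  choose! f hfJ hf0 hfd using h2
  refine ⟨D.image f, ?_, ?_⟩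
  · intro b hb
    obtain ⟨d, hd, rfl⟩ := Finset.mem_image.1 hb
    exact ⟨hfJ d hd, hf0 d hd⟩
  · intro g hg hg0
    have h3 : monomial ((MonomialOrder.lex (σ := Fin n)).degree g) (1 : k) ∈
        Ideal.span ((fun s => monomial s (1 : k)) '' (D : Set (Fin n →₀ ℕ))) := by
      have h4 : monomial ((MonomialOrder.lex (σ := Fin n)).degree g) (1 : k) ∈
          Submodule.span (MvPolynomial (Fin n) k) ((fun s => monomial s (1 : k)) '' E) :=
        Submodule.subset_span ⟨_, ⟨g, hg, hg0, rfl⟩, rfl⟩
      rw [hspan, Finset.coe_image] at h4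
      exact h4
    rw [mem_ideal_span_monomial_image] at h3
    obtain ⟨d, hd, hle⟩ := h3 ((MonomialOrder.lex (σ := Fin n)).degree g) (by
      rw [support_monomial, if_neg one_ne_zero]
      exact Finset.mem_singleton_self _)
    refine ⟨f d, Finset.mem_image_of_mem _ hd, ?_⟩
    rw [hfd d hd]
    exact hle

theorem ev_good (J : Ideal (MvPolynomial (Fin n) k)) {ι : Type*} [Finite ι]
    (g : ι → MvPolynomial (Fin n) k) (hg : Ideal.span (Set.range g) = J) :
    ∀ᶠ V : ValuationSubring k in fil k, ∀ G : ι → MvPolynomial (Fin n) V,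
      (∀ i, incl n V (G i) = g i) →
      (∀ F, incl n V F ∈ J → F ∈ Ideal.span (Set.range G)) ∧
      (J ≠ ⊤ → ∀ F, incl n V F ∈ J → red n V F ≠ 1) := by
  classical
  have := Fintype.ofFinite ι
  obtain ⟨B, hB, hBJ⟩ := exists_grb J
  have hc : ∀ b ∈ B, ∃ c : ι → MvPolynomial (Fin n) k, ∑ i, c i * g i = b := by
    intro b hb
    have h1 := (hB b hb).1
    rw [← hg] at h1
    exact Ideal.mem_span_range_iff_exists_fun.1 h1
  choose! c hc using hc
  filter_upwards [(Filter.eventually_all_finset B).2 fun b _ => ev_lift b,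
    (Filter.eventually_all_finset B).2 fun b _ => ev_mem
      ((MonomialOrder.lex (σ := Fin n)).leadingCoeff b)⁻¹,
    (Filter.eventually_all_finset B).2 fun b _ => Filter.eventually_all.2
      fun i => ev_lift (c b i)] with V h1 h2 h3 G hG
  set BV : Set (MvPolynomial (Fin n) V) := {b | incl n V b ∈ B} with hBV
  have hunit : ∀ b ∈ BV, IsUnit ((MonomialOrder.lex (σ := Fin n)).leadingCoeff b) := by
    intro b hb
    have h4 : (((MonomialOrder.lex (σ := Fin n)).leadingCoeff b : V) : k) =
        (MonomialOrder.lex (σ := Fin n)).leadingCoeff (incl n V b) := by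
      unfold MonomialOrder.leadingCoeff
      rw [incl_degree]
      unfold incl
      rw [coeff_map]
      rfl
    have h5 : (MonomialOrder.lex (σ := Fin n)).leadingCoeff (incl n V b) ≠ 0 := by
      rw [MonomialOrder.leadingCoeff_ne_zero_iff]
      exact (hB _ hb).2
    refine IsUnit.of_mul_eq_one ⟨_, h2 _ hb⟩ ?_
    apply Subtype.ext
    change (((MonomialOrder.lex (σ := Fin n)).leadingCoeff b : V) : k) * _ = 1
    rw [h4]
    exact mul_inv_cancel₀ h5
  have hBG : ∀ b ∈ BV, b ∈ Ideal.span (Set.range G) := by
    intro b hb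
    choose c' hc' using h3 _ hb
    have h4 : b = ∑ i, c' i * G i := by
      apply incl_inj V
      rw [map_sum, ← hc _ hb]
      refine Finset.sum_congr rfl fun i _ => ?_
      rw [map_mul, hc', hG]
    rw [h4]
    exact Ideal.sum_mem _ fun i _ => Ideal.mul_mem_left _ _ (Ideal.subset_span ⟨i, rfl⟩)
  have hGJ : ∀ F ∈ Ideal.span (Set.range G), incl n V F ∈ J := by
    intro F hF
    have h4 : Ideal.span (Set.range G) ≤ J.comap (incl n V) := by
      rw [Ideal.span_le]
      rintro _ ⟨i, rfl⟩
      change incl n V (G i) ∈ J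
      rw [hG, ← hg]
      exact Ideal.subset_span ⟨i, rfl⟩
    exact h4 hF
  -- division
  have hdiv : ∀ F : MvPolynomial (Fin n) V, ∃ r, F - r ∈ Ideal.span (Set.range G) ∧
      ∀ d ∈ r.support, ∀ b ∈ B, ¬ (MonomialOrder.lex (σ := Fin n)).degree b ≤ d := by
    intro F
    obtain ⟨q, r, hq, -, hr⟩ := (MonomialOrder.lex (σ := Fin n)).div_set hunit F
    refine ⟨r, ?_, ?_⟩
    · rw [hq, add_sub_cancel_right, Finsupp.linearCombination_apply, Finsupp.sum]
      refine Ideal.sum_mem _ fun b _ => ?_
      rw [smul_eq_mul]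
      exact Ideal.mul_mem_left _ _ (hBG _ b.2)
    · intro d hd b hb hle
      obtain ⟨b', hb'⟩ := h1 b hb
      refine hr d hd b' (by change incl n V b' ∈ B; rw [hb']; exact hb) ?_
      rw [← incl_degree, hb']
      exact hle
  have hz : ∀ r : MvPolynomial (Fin n) V, incl n V r ∈ J →
      (∀ d ∈ r.support, ∀ b ∈ B, ¬ (MonomialOrder.lex (σ := Fin n)).degree b ≤ d) → r = 0 := by
    intro r hrJ hr
    by_contra hr0
    have hr0' : incl n V r ≠ 0 := fun h => hr0 (incl_inj V (by rw [h, map_zero]))
    obtain ⟨b, hb, hle⟩ := hBJ _ hrJ hr0'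
    refine hr _ ?_ b hb hle
    rw [incl_degree, MonomialOrder.degree_mem_support_iff]
    exact hr0
  refine ⟨fun F hF => ?_, fun hJ F hF h1F => ?_⟩
  · obtain ⟨r, hr1, hr2⟩ := hdiv F
    have h4 : r = 0 := by
      refine hz r ?_ hr2
      have h5 := hGJ _ hr1
      rw [map_sub] at h5
      have h6 : incl n V r = incl n V F - (incl n V F - incl n V r) := by ring
      rw [h6]
      exact J.sub_mem hF h5
    rw [h4, sub_zero] at hr1
    exact hr1
  · obtain ⟨π, hπ, w, hw⟩ := red_eq_zero (F := 1 - F) (by rw [map_sub, h1F, map_one, sub_self])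
    obtain ⟨r, hr1, hr2⟩ := hdiv w
    have h4 : incl n V (1 - C π * r) ∈ J := by
      have h5 : 1 - C π * r = F + C π * (w - r) := by
        rw [mul_sub, ← hw]; ring
      rw [h5, map_add, map_mul]
      exact J.add_mem hF (J.mul_mem_left _ (hGJ _ hr1))
    have h5 : (1 - C π * r : MvPolynomial (Fin n) V) = 0 := by
      refine hz _ h4 ?_
      intro d hd b hb hle
      by_cases hdr : d ∈ r.support
      · exact hr2 d hdr b hb hle
      · have hd0 : d = 0 := by
          by_contra hd0
          rw [mem_support_iff] at hd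
          apply hd
          rw [coeff_sub, coeff_C_mul, notMem_support_iff.1 hdr, mul_zero, sub_zero, coeff_one,
            if_neg (Ne.symm hd0)]
        rw [hd0] at hle
        have h6 : (MonomialOrder.lex (σ := Fin n)).degree b = 0 := le_antisymm hle zero_le
        have h7 := MonomialOrder.eq_C_of_degree_eq_zero h6
        apply hJ
        apply Ideal.eq_top_of_isUnit_mem J (hB b hb).1
        rw [h7]
        refine IsUnit.map C (isUnit_iff_ne_zero.2 fun h8 => (hB b hb).2 ?_)
        rw [h7, h8, C_0]
    have h6 := congrArg (coeff 0) h5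
    rw [coeff_sub, coeff_C_mul, coeff_zero, coeff_one, if_pos rfl, sub_eq_zero] at h6
    exact (IsLocalRing.mem_maximalIdeal π).1 hπ (IsUnit.of_mul_eq_one _ h6.symm)

end Pool.Agent.FNA
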