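import Pool.Agent.FNA.Defs

/-!
# Localisation of certificates
-/

open IsLocalRing

namespace Pool.Agent.FNA

universe u

variable {P S : Type u} [CommRing P] [CommRing S] [Algebra P S] {q : Ideal P} [q.IsPrime]
  [IsLocalization.AtPrime S q]

private theorem loc_mem_iff {I : Ideal P} {x : P} :
    algebraMap P S x ∈ I.map (algebraMap P S) ↔ ∃ t ∉ q, t * x ∈ I :=
  IsLocalization.algebraMap_mem_map_algebraMap_iff q.primeCompl S I x

private theorem loc_surj (y : S) : ∃ x : P, ∃ t ∉ q, algebraMap P S t * y = algebraMap P S x := by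
  obtain ⟨⟨x, t⟩, h⟩ := IsLocalization.surj q.primeCompl y
  exact ⟨x, t, t.2, by rw [mul_comm]; exact h⟩

private theorem loc_unit {t : P} (ht : t ∉ q) : IsUnit (algebraMap P S t) :=
  IsLocalization.map_units S (⟨t, ht⟩ : q.primeCompl)

private theorem loc_reg (q : Ideal P) [q.IsPrime] [IsLocalization.AtPrime S q] {I : Ideal P} {a : P} (ha : ∀ y, a * y ∈ I → y ∈ I) (y : S)
    (hy : algebraMap P S a * y ∈ I.map (algebraMap P S)) : y ∈ I.map (algebraMap P S) := by
  obtain ⟨x, t, ht, hx⟩ := loc_surj (q := q) y
  have h1 : algebraMap P S (a * x) ∈ I.map (algebraMap P S) := by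
    rw [map_mul, ← hx]
    have h2 : algebraMap P S a * (algebraMap P S t * y) =
        algebraMap P S t * (algebraMap P S a * y) := by ring
    rw [h2]
    exact Ideal.mul_mem_left _ _ hy
  obtain ⟨s, hs, h3⟩ := (loc_mem_iff (q := q)).1 h1
  have h4 : algebraMap P S x ∈ I.map (algebraMap P S) :=
    (loc_mem_iff (q := q)).2 ⟨s, hs, ha _ (by rw [← mul_assoc, mul_comm a s, mul_assoc]; exact h3)⟩
  rw [← hx] at h4
  exact (Ideal.unit_mul_mem_iff_mem _ (loc_unit (q := q) ht)).1 h4

theorem cert_loc [IsLocalRing S] {m c : ℕ} {I J Q : Ideal P} {H a b z : P} {g : Fin m → P}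
    {u f f' : Fin (c + 1) → Fin m → P} {r : Fin (c + 1) → P}
    (h : IsCert I J Q H a b z g u f f' r) (hQ : Q ≤ q) :
    IsCert (I.map (algebraMap P S)) (J.map (algebraMap P S)) (maximalIdeal S)
      (algebraMap P S H) (algebraMap P S a) (algebraMap P S b) (algebraMap P S z)
      (fun l => algebraMap P S (g l)) (fun i l => algebraMap P S (u i l))
      (fun i l => algebraMap P S (f i l)) (fun i l => algebraMap P S (f' i l))
      (fun i => algebraMap P S (r i)) := by
  have hmax : ∀ x ∈ q, algebraMap P S x ∈ maximalIdeal S := by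
    intro x hx
    exact (IsLocalization.AtPrime.to_map_mem_maximal_iff S q x).2 hx
  refine ⟨?_, ?_, loc_reg q h.rega, loc_reg q h.regz, loc_reg q h.regb,
    ?_, ?_, ?_, ?_, ?_, ?_, ?_, ?_⟩
  · rw [← h.span, Ideal.map_span, ← Set.range_comp]
    rfl
  · intro s hs i
    obtain ⟨t, ht⟩ := IsLocalization.exist_integer_multiples_of_finite q.primeCompl s
    choose σ hσ using ht
    have h1 : ∀ l, algebraMap P S (σ l) = algebraMap P S t * s l := by
      intro l
      rw [hσ, Algebra.smul_def]
    have h2 : algebraMap P S (∑ l, σ l * g l) = 0 := by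
      rw [map_sum]
      have h3 : ∑ l, algebraMap P S (σ l * g l) = algebraMap P S t * ∑ l, s l * algebraMap P S (g l) := by
        rw [Finset.mul_sum]
        refine Finset.sum_congr rfl fun l _ => ?_
        rw [map_mul, h1, mul_assoc]
      rw [h3, hs, mul_zero]
    obtain ⟨t', ht'⟩ := (IsLocalization.map_eq_zero_iff q.primeCompl S _).1 h2
    have h3 := h.rel (fun l => t' * σ l) (by
      rw [← ht', Finset.mul_sum]
      exact Finset.sum_congr rfl fun l _ => by ring) i
    have h4 := Ideal.mem_map_of_mem (algebraMap P S) h3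
    have h5 : algebraMap P S (∑ l, t' * σ l * u i l) =
        algebraMap P S t' * (algebraMap P S t * ∑ l, s l * algebraMap P S (u i l)) := by
      rw [map_sum, Finset.mul_sum, Finset.mul_sum]
      refine Finset.sum_congr rfl fun l _ => ?_
      rw [map_mul, map_mul, h1]
      ring
    rw [h5, Ideal.unit_mul_mem_iff_mem _ (IsLocalization.map_units S t'),
      Ideal.unit_mul_mem_iff_mem _ (IsLocalization.map_units S t)] at h4
    exact h4
  · have h1 := Ideal.map_mono (f := algebraMap P S) h.le_J
    rw [Ideal.map_sup, Ideal.map_span, Set.image_singleton] at h1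
    exact h1
  · have h1 : J.map (algebraMap P S) ≤ (((I ⊔ Ideal.span {a}).map (algebraMap P S)).colon
        (Ideal.span {algebraMap P S H})) := by
      rw [Ideal.map_le_iff_le_comap]
      intro y hy
      rw [Ideal.mem_comap, Ideal.mem_colon_span_singleton]
      rw [← map_mul, mul_comm]
      exact Ideal.mem_map_of_mem _ (h.J_le y hy)
    intro y hy
    have h2 := h1 hy
    rw [Ideal.mem_colon_span_singleton, Ideal.map_sup, Ideal.map_span, Set.image_singleton,
      mul_comm] at h2
    exact h2
  · intro i j
    have h1 := Ideal.mem_map_of_mem (algebraMap P S) (h.hf i j)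
    rw [map_sub, map_sum, apply_ite (algebraMap P S), map_zero] at h1
    simpa only [map_mul] using h1
  · intro i j
    have h1 := Ideal.mem_map_of_mem (algebraMap P S) (h.hf' i j)
    rw [map_sub, map_sum, apply_ite (algebraMap P S), map_zero] at h1
    simpa only [map_mul] using h1
  · intro l
    have h1 := Ideal.mem_map_of_mem (algebraMap P S) (h.sq l)
    rw [Ideal.map_pow] at h1
    simpa only [map_mul, map_sub, map_sum] using h1
  · intro j
    have h1 := Ideal.mem_map_of_mem (algebraMap P S) (h.sq' j)
    rw [Ideal.map_pow] at h1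
    simpa only [map_mul, map_sub, map_sum] using h1
  · intro l
    have h1 := hmax _ (hQ (h.psi l))
    simpa only [map_mul, map_sum] using h1
  · rw [Ideal.map_le_iff_le_comap]
    intro x hx
    exact hmax x (hQ (h.le_Q hx))

end Pool.Agent.FNA
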