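import Pool.Agent.FNA.EvC
import Pool.Agent.FNA.Loc
import Pool.Agent.FNA.Free
import Pool.Agent.FNA.CertF
import Pool.Agent.FNA.CertE

/-!
# Vasconcelos' conjecture for free normal modules over localisations of polynomial rings
-/

open Filter MvPolynomial IsLocalRing CategoryTheory RingTheory.Sequence

namespace Pool.Agent.FNA

open Pool.Agent.Helper19

universe u

variable {k : Type u} [Field k] {n : ℕ}

/-- over `k[x]` there are no certificates -/
theorem no_cert {m c : ℕ} {I J Q : Ideal (MvPolynomial (Fin n) k)} [hQ : Q.IsPrime]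
    {H a b z : MvPolynomial (Fin n) k} {g : Fin m → MvPolynomial (Fin n) k}
    {u f f' : Fin (c + 1) → Fin m → MvPolynomial (Fin n) k}
    {r : Fin (c + 1) → MvPolynomial (Fin n) k} (h : IsCert I J Q H a b z g u f f' r)
    (hH : H ∉ Q) (hr : r 0 ∉ Q) : False := by
  have hreg : ∀ y, H * r 0 * y ∈ Q → y ∈ Q := by
    intro y hy
    rcases hQ.mem_or_mem hy with h1 | h1
    · rcases hQ.mem_or_mem h1 with h2 | h2
      · exact absurd h2 hH
      · exact absurd h2 hr
    · exact h1
  have hev := ((((((ev_cert h).and ((ev_lift H).and ((ev_lift a).and ((ev_lift b).and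
    (ev_lift z))))).and
    (Filter.eventually_all.2 fun l => ev_lift (g l))).and
    (Filter.eventually_all.2 fun i => Filter.eventually_all.2 fun l => ev_lift (u i l))).and
    ((Filter.eventually_all.2 fun i => Filter.eventually_all.2 fun l => ev_lift (f i l)).and
    (Filter.eventually_all.2 fun i => Filter.eventually_all.2 fun l => ev_lift (f' i l)))).and
    (Filter.eventually_all.2 fun i => ev_lift (r i))).and
    ((ev_ne_top Q hQ.ne_top).and (ev_reg Q (H * r 0) hreg))
  obtain ⟨V, ⟨p, hp, hchar⟩, ⟨⟨⟨⟨⟨hc, ⟨H', hH'⟩, ⟨a', ha'⟩, ⟨b', hb'⟩, ⟨z', hz'⟩⟩, hg⟩, hu⟩,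
    hf, hf'⟩, hr'⟩, htop, hregV⟩ := ((frequently_char k).and_eventually hev).exists
  choose g' hg' using hg
  choose u' hu' using hu
  choose p' hp' using hf
  choose p'' hp'' using hf'
  choose r' hr' using hr'
  have hcert := hc H' a' b' z' g' u' p' p'' r' hH' ha' hb' hz' hg' hu' hp' hp'' hr'
  set w := red n V (H' * r' 0) with hw
  have hwreg : ∀ y, w * y ∈ sp V Q → y ∈ sp V Q := hregV (H' * r' 0) (by
    rw [map_mul, hH', hr'])
  have hdisj : Disjoint (sp V Q : Set (MvPolynomial (Fin n) (ResidueField V)))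
      (Submonoid.powers w : Set (MvPolynomial (Fin n) (ResidueField V))) := by
    rw [Set.disjoint_left]
    rintro x hx ⟨N, rfl⟩
    apply htop
    rw [Ideal.eq_top_iff_one]
    have h1 : ∀ N : ℕ, w ^ N ∈ sp V Q → (1 : MvPolynomial (Fin n) (ResidueField V)) ∈ sp V Q := by
      intro N
      induction N with
      | zero => intro h; simpa using h
      | succ N ih =>
        intro h
        apply ih
        apply hwreg
        rw [← pow_succ']
        exact h
    exact h1 N hx
  obtain ⟨q, hq, hQq, hqd⟩ := Ideal.exists_le_prime_disjoint _ _ hdisj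
  have hwq : w ∉ q := fun h => Set.disjoint_left.1 hqd h (Submonoid.mem_powers w)
  let S' := Localization.AtPrime q
  have hcert' := cert_loc (S := S') (q := q) hcert hQq
  have : Fact p.Prime := ⟨hp⟩
  have : CharP (MvPolynomial (Fin n) (ResidueField V)) p := inferInstance
  have hinj : Function.Injective (algebraMap (MvPolynomial (Fin n) (ResidueField V)) S') :=
    IsLocalization.injective S' q.primeCompl_le_nonZeroDivisors
  have : CharP S' p := charP_of_injective_algebraMap hinj p
  have hwu : IsUnit (algebraMap (MvPolynomial (Fin n) (ResidueField V)) S' w) :=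
    IsLocalization.map_units S' (⟨w, hwq⟩ : q.primeCompl)
  rw [hw, map_mul, map_mul, IsUnit.mul_iff] at hwu
  exact cert_false (S := S') (fun N => ⟨p ^ N, (Nat.lt_pow_self hp.one_lt).le,
    powAdd_of_char p N, frobFlat_of_isRegularLocalRing S' (powAdd_of_char p N)⟩) hcert'
    hwu.1 hwu.2

/-- `S = k[x_1..x_n]_q` -/
theorem impossible_loc {S : Type u} [CommRing S] [IsLocalRing S] (q : Ideal (MvPolynomial (Fin n) k))
    [q.IsPrime] [Algebra (MvPolynomial (Fin n) k) S] [IsLocalization.AtPrime S q] (I : Ideal S)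
    (hI : I ≠ ⊤) : Impossible I := by
  intro c φ huniv hindep r hr hψ
  obtain ⟨m, I', J', H, a, b, z, g, u, f, f', r', h1, h2, h3⟩ :=
    exists_cert q I hI c φ huniv hindep r hr hψ
  exact no_cert h1 h2 h3

end Pool.Agent.FNA
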