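import Pool.Agent.FNA.Grb

/-!
# Specialisation of ideals

`sp V J` is the ideal of the reductions of the polynomials over `V` which lie in `J`.
-/

open Filter MvPolynomial

namespace Pool.Agent.FNA

universe u

variable {k : Type u} [Field k] {n : ℕ}

/-- the specialisation of an ideal -/
noncomputable def sp (V : ValuationSubring k) (J : Ideal (MvPolynomial (Fin n) k)) :
    Ideal (MvPolynomial (Fin n) (IsLocalRing.ResidueField V)) :=
  (J.comap (incl n V)).map (red n V)

theorem mem_sp {V : ValuationSubring k} {J : Ideal (MvPolynomial (Fin n) k)}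
    {y : MvPolynomial (Fin n) (IsLocalRing.ResidueField V)} :
    y ∈ sp V J ↔ ∃ F, incl n V F ∈ J ∧ red n V F = y := by
  unfold sp
  rw [Ideal.mem_map_iff_of_surjective _ (red_surj V)]
  rfl

theorem red_mem_sp {V : ValuationSubring k} {J : Ideal (MvPolynomial (Fin n) k)}
    {F : MvPolynomial (Fin n) V} (h : incl n V F ∈ J) : red n V F ∈ sp V J :=
  mem_sp.2 ⟨F, h, rfl⟩

theorem sp_mono (V : ValuationSubring k) {J J' : Ideal (MvPolynomial (Fin n) k)} (h : J ≤ J') :
    sp V J ≤ sp V J' := by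
  intro y hy
  obtain ⟨F, hF, rfl⟩ := mem_sp.1 hy
  exact red_mem_sp (h hF)

/-- elements of `V[x]` whose reduction lies in `sp V J` -/
theorem red_mem {V : ValuationSubring k} {J : Ideal (MvPolynomial (Fin n) k)}
    {F : MvPolynomial (Fin n) V} (h : red n V F ∈ sp V J) :
    ∃ i w, ∃ π ∈ IsLocalRing.maximalIdeal V, incl n V i ∈ J ∧ F = i + C π * w := by
  obtain ⟨i, hi, h1⟩ := mem_sp.1 h
  obtain ⟨π, hπ, w, hw⟩ := red_eq_zero (F := F - i) (by rw [map_sub, h1, sub_self])
  exact ⟨i, w, π, hπ, hi, by rw [← hw]; ring⟩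

theorem incl_C (V : ValuationSubring k) (π : V) : incl n V (C π) = C (π : k) := by
  unfold incl
  rw [map_C]
  rfl

theorem red_C_mul {V : ValuationSubring k} {π : V} (hπ : π ∈ IsLocalRing.maximalIdeal V)
    (w : MvPolynomial (Fin n) V) : red n V (C π * w) = 0 := by
  unfold red
  rw [map_mul, map_C, (IsLocalRing.residue_eq_zero_iff π).2 hπ, C_0, zero_mul]

theorem mem_of_C_mul {V : ValuationSubring k} {J : Ideal (MvPolynomial (Fin n) k)} {π : V}
    (hπ : π ≠ 0) {F : MvPolynomial (Fin n) V} (h : incl n V (C π * F) ∈ J) : incl n V F ∈ J := by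
  rw [map_mul, incl_C] at h
  have h1 : (π : k) ≠ 0 := fun h => hπ (Subtype.ext h)
  have h2 : incl n V F = C (π : k)⁻¹ * (C (π : k) * incl n V F) := by
    rw [← mul_assoc, ← C_mul, inv_mul_cancel₀ h1, C_1, one_mul]
  rw [h2]
  exact J.mul_mem_left _ h

theorem ev_span (J : Ideal (MvPolynomial (Fin n) k)) {ι : Type*} [Finite ι]
    (g : ι → MvPolynomial (Fin n) k) (hg : Ideal.span (Set.range g) = J) :
    ∀ᶠ V : ValuationSubring k in fil k, ∀ G : ι → MvPolynomial (Fin n) V,
      (∀ i, incl n V (G i) = g i) →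
      Ideal.span (Set.range fun i => red n V (G i)) = sp V J := by
  filter_upwards [ev_good J g hg] with V hV G hG
  apply le_antisymm
  · rw [Ideal.span_le]
    rintro _ ⟨i, rfl⟩
    refine red_mem_sp ?_
    rw [hG, ← hg]
    exact Ideal.subset_span ⟨i, rfl⟩
  · intro y hy
    obtain ⟨F, hF, rfl⟩ := mem_sp.1 hy
    have h1 := (hV G hG).1 F hF
    have h2 := Ideal.mem_map_of_mem (red n V) h1
    rw [Ideal.map_span, ← Set.range_comp] at h2
    exact h2

theorem ev_ne_top (J : Ideal (MvPolynomial (Fin n) k)) (hJ : J ≠ ⊤) :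
    ∀ᶠ V : ValuationSubring k in fil k, sp V J ≠ ⊤ := by
  obtain ⟨m, g, hg⟩ := Submodule.fg_iff_exists_fin_generating_family.1
    (IsNoetherian.noetherian J)
  filter_upwards [ev_good J g hg, Filter.eventually_all.2 fun i => ev_lift (g i)] with V hV hl htop
  choose G hG using hl
  have h1 : (1 : MvPolynomial (Fin n) (IsLocalRing.ResidueField V)) ∈ sp V J := by
    rw [htop]; trivial
  obtain ⟨F, hF, h2⟩ := mem_sp.1 h1
  exact (hV G hG).2 hJ F hF h2

theorem ev_reg (J : Ideal (MvPolynomial (Fin n) k)) (a : MvPolynomial (Fin n) k)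
    (ha : ∀ y, a * y ∈ J → y ∈ J) :
    ∀ᶠ V : ValuationSubring k in fil k, ∀ a' : MvPolynomial (Fin n) V, incl n V a' = a →
      ∀ y, red n V a' * y ∈ sp V J → y ∈ sp V J := by
  obtain ⟨m, g, hg⟩ := Submodule.fg_iff_exists_fin_generating_family.1
    (IsNoetherian.noetherian J)
  have hg' : Ideal.span (Set.range (fun i : Option (Fin m) => i.elim a g)) =
      J ⊔ Ideal.span {a} := by
    apply le_antisymm
    · rw [Ideal.span_le]
      rintro _ ⟨i, rfl⟩
      cases i with
      | none => exact Ideal.mem_sup_right (Ideal.mem_span_singleton_self _)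
      | some i =>
        refine Ideal.mem_sup_left ?_
        rw [← hg]
        exact Ideal.subset_span ⟨i, rfl⟩
    · refine sup_le ?_ ?_
      · rw [← hg]
        refine Submodule.span_mono ?_
        rintro _ ⟨i, rfl⟩
        exact ⟨some i, rfl⟩
      · rw [Ideal.span_singleton_le_iff_mem]
        exact Ideal.subset_span ⟨none, rfl⟩
  filter_upwards [ev_good (J ⊔ Ideal.span {a}) _ hg',
    Filter.eventually_all.2 fun i => ev_lift (g i)] with V hV hl a' ha' y hy
  choose G hG using hl
  obtain ⟨u, rfl⟩ := red_surj V y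
  rw [← map_mul] at hy
  obtain ⟨i, w, π, hπ, hi, h1⟩ := red_mem hy
  by_cases hπ0 : π = 0
  · rw [hπ0, C_0, zero_mul, add_zero] at h1
    apply red_mem_sp
    apply ha
    rw [← ha', ← map_mul, h1]
    exact hi
  have h2 : incl n V w ∈ J ⊔ Ideal.span {a} := by
    refine mem_of_C_mul hπ0 ?_
    have h3 : C π * w = a' * u - i := by rw [h1]; ring
    rw [h3, map_sub, map_mul, ha']
    exact Ideal.sub_mem _ (Ideal.mem_sup_right (Ideal.mul_mem_right _ _
      (Ideal.mem_span_singleton_self _))) (Ideal.mem_sup_left hi)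
  have h3 := (hV (fun i : Option (Fin m) => i.elim a' G) (by
    intro i
    cases i with
    | none => exact ha'
    | some i => exact hG i)).1 w h2
  obtain ⟨c, hc⟩ := Ideal.mem_span_range_iff_exists_fun.1 h3
  rw [Fintype.sum_option] at hc
  simp only [Option.elim] at hc
  have h4 : incl n V (∑ i, c (some i) * G i) ∈ J := by
    rw [map_sum]
    refine Ideal.sum_mem _ fun i _ => ?_
    rw [map_mul, hG, ← hg]
    exact Ideal.mul_mem_left _ _ (Ideal.subset_span ⟨i, rfl⟩)
  have h5 : red n V u = red n V (u - C π * c none) := by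
    rw [map_sub, red_C_mul hπ, sub_zero]
  rw [h5]
  apply red_mem_sp
  apply ha
  rw [← ha', ← map_mul]
  have h6 : a' * (u - C π * c none) = i + C π * ∑ i, c (some i) * G i := by
    have h7 : a' * (u - C π * c none) = a' * u - C π * (c none * a') := by ring
    rw [h7, h1, ← hc]
    ring
  rw [h6, map_add, map_mul]
  exact J.add_mem hi (J.mul_mem_left _ h4)

theorem ev_sq (J : Ideal (MvPolynomial (Fin n) k)) (x : MvPolynomial (Fin n) k) (hx : x ∈ J ^ 2) :
    ∀ᶠ V : ValuationSubring k in fil k, ∀ x' : MvPolynomial (Fin n) V, incl n V x' = x →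
      red n V x' ∈ sp V J ^ 2 := by
  rw [pow_two] at hx
  induction hx using Submodule.mul_induction_on' with
  | mem_mul_mem y hy z hz =>
    filter_upwards [ev_lift y, ev_lift z] with V hy' hz' x' hx'
    obtain ⟨y', hy'⟩ := hy'
    obtain ⟨z', hz'⟩ := hz'
    have h1 : x' = y' * z' := incl_inj V (by rw [hx', map_mul, hy', hz'])
    rw [h1, map_mul, pow_two]
    exact Ideal.mul_mem_mul (red_mem_sp (by rw [hy']; exact hy)) (red_mem_sp (by rw [hz']; exact hz))
  | add y _ z _ hy hz =>
    filter_upwards [ev_lift y, ev_lift z, hy, hz] with V hy' hz' hy hz x' hx'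
    obtain ⟨y', hy'⟩ := hy'
    obtain ⟨z', hz'⟩ := hz'
    have h1 : x' = y' + z' := incl_inj V (by rw [hx', map_add, hy', hz'])
    rw [h1, map_add]
    exact Ideal.add_mem _ (hy y' hy') (hz z' hz')

theorem ev_rel (J : Ideal (MvPolynomial (Fin n) k)) {ι : Type*} [Fintype ι]
    (g u : ι → MvPolynomial (Fin n) k) (hg : Ideal.span (Set.range g) = J)
    (hrel : ∀ s : ι → MvPolynomial (Fin n) k, ∑ l, s l * g l = 0 → ∑ l, s l * u l ∈ J) :
    ∀ᶠ V : ValuationSubring k in fil k, ∀ G U : ι → MvPolynomial (Fin n) V,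
      (∀ i, incl n V (G i) = g i) → (∀ i, incl n V (U i) = u i) →
      ∀ s : ι → MvPolynomial (Fin n) (IsLocalRing.ResidueField V),
        ∑ l, s l * red n V (G l) = 0 → ∑ l, s l * red n V (U l) ∈ sp V J := by
  filter_upwards [ev_good J g hg] with V hV G U hG hU s hs
  choose s' hs' using fun l => red_surj V (s l)
  obtain ⟨π, hπ, w, hw⟩ := red_eq_zero (F := ∑ l, s' l * G l) (by
    rw [map_sum, ← hs]
    refine Finset.sum_congr rfl fun l _ => ?_
    rw [map_mul, hs'])
  have key : ∀ t : ι → MvPolynomial (Fin n) V, ∑ l, t l * G l = 0 →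
      red n V (∑ l, t l * U l) ∈ sp V J := by
    intro t ht
    apply red_mem_sp
    rw [map_sum]
    have h1 := hrel (fun l => incl n V (t l)) (by
      have h2 := congrArg (incl n V) ht
      rw [map_sum, map_zero] at h2
      rw [← h2]
      refine Finset.sum_congr rfl fun l _ => ?_
      rw [map_mul, hG])
    convert h1 using 2
    rw [map_mul, hU]
  have hgoal : ∀ t : ι → MvPolynomial (Fin n) V, (∀ l, red n V (t l) = s l) →
      red n V (∑ l, t l * U l) = ∑ l, s l * red n V (U l) := by
    intro t ht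
    rw [map_sum]
    refine Finset.sum_congr rfl fun l _ => ?_
    rw [map_mul, ht]
  by_cases hπ0 : π = 0
  · rw [hπ0, C_0, zero_mul] at hw
    rw [← hgoal s' hs']
    exact key s' hw
  · have h2 : incl n V w ∈ J := by
      refine mem_of_C_mul hπ0 ?_
      rw [← hw, map_sum]
      refine Ideal.sum_mem _ fun l _ => ?_
      rw [map_mul, hG, ← hg]
      exact Ideal.mul_mem_left _ _ (Ideal.subset_span ⟨l, rfl⟩)
    obtain ⟨c, hc⟩ := Ideal.mem_span_range_iff_exists_fun.1 ((hV G hG).1 w h2)
    have h3 := key (fun l => s' l - C π * c l) (by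
      have h4 : ∑ l, (s' l - C π * c l) * G l = ∑ l, s' l * G l - C π * ∑ l, c l * G l := by
        rw [Finset.mul_sum, ← Finset.sum_sub_distrib]
        refine Finset.sum_congr rfl fun l _ => ?_
        ring
      rw [h4, hw, hc, sub_self])
    rw [hgoal _ (fun l => by rw [map_sub, red_C_mul hπ, sub_zero, hs'])] at h3
    exact h3

end Pool.Agent.FNA
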